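import Mathlib

/-! The algebraic core: the second order conditions force a single nonzero coordinate. -/

open Finset

namespace Pool.Agent.MP_c22ba5_pr.H86

/-- the reduced Hessian -/
noncomputable def Kmat {n : ℕ} (a L : Fin n → ℝ) (i j : Fin n) : ℝ :=
  if a i = a j then (if i = j then 3 * L i else L i) else 0

section
variable {n : ℕ} {a L : Fin n → ℝ} {q lam D : ℝ}

lemma row_sum (i : Fin n) :
    ∑ j, a j * Kmat a L i j = a i * L i * (2 + ((univ.filter fun j => a i = a j).card : ℝ)) := by
  have : ∀ j, a j * Kmat a L i j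
      = (if i = j then 2 * (a i * L i) else 0) + (if a i = a j then a i * L i else 0) := by
    intro j
    unfold Kmat
    by_cases h : i = j
    · subst h; simp; ring
    · by_cases h' : a i = a j
      · simp [h, h']
      · simp [h, h']
  simp only [this, sum_add_distrib, sum_ite_eq, mem_univ, if_true, ← sum_filter, sum_const,
    nsmul_eq_mul]
  ring

lemma quad_pair (K : Fin n → Fin n → ℝ) (i j : Fin n) (x y : ℝ) :
    let v : Fin n → ℝ := fun k => (if k = i then x else 0) + (if k = j then y else 0)
    (∑ k, ∑ l, v k * v l * K k l = x * x * K i i + x * y * K i j + y * x * K j i + y * y * K j j)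
      ∧ (∀ b : Fin n → ℝ, ∑ k, b k * v k = b i * x + b j * y) ∧ ∑ k, v k = x + y := by
  intro v
  refine ⟨?_, fun b => ?_, ?_⟩
  · simp only [v, add_mul, mul_add, ite_mul, mul_ite, zero_mul, mul_zero, sum_add_distrib,
      sum_ite_eq', mem_univ, if_true]
    ring
  · simp [v, mul_add, sum_add_distrib]
  · simp [v, sum_add_distrib]

lemma quad_triple (K : Fin n → Fin n → ℝ) (i j m : Fin n) (x y z : ℝ) :
    let v : Fin n → ℝ := fun k => (if k = i then x else 0) + (if k = j then y else 0)
      + (if k = m then z else 0)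
    (∑ k, ∑ l, v k * v l * K k l = x * x * K i i + x * y * K i j + y * x * K j i + y * y * K j j
      + x * z * K i m + z * x * K m i + y * z * K j m + z * y * K m j + z * z * K m m)
      ∧ (∀ b : Fin n → ℝ, ∑ k, b k * v k = b i * x + b j * y + b m * z) ∧ ∑ k, v k = x + y + z := by
  intro v
  refine ⟨?_, fun b => ?_, ?_⟩
  · simp only [v, add_mul, mul_add, ite_mul, mul_ite, zero_mul, mul_zero, sum_add_distrib,
      sum_ite_eq', mem_univ, if_true]
    ring
  · simp [v, mul_add, sum_add_distrib]
  · simp [v, sum_add_distrib]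

theorem single_support (hq : 0 < q) (hlam : 0 < lam) (hS : 0 ≤ ∑ k, a k)
    (hom : ∀ i, a i ≠ 0 → ∑ j, a j * Kmat a L i j = 2 * q * lam * a i + D * ∑ k, a k)
    (sec : ∀ v : Fin n → ℝ, (∀ i, a i = 0 → v i = 0) → ∑ k, a k * v k = 0 →
      ∑ k, ∑ l, v k * v l * Kmat a L k l ≤ D * (∑ k, v k) ^ 2)
    (hsym : ∀ i j, a i = a j → a i ≠ 0 → L i = L j)
    (hskew : (∀ i, 0 ≤ a i) → 0 ≤ D * ∑ k, a k)
    (hconv : 1 ≤ q → ∀ i, a i ≠ 0 → D ≤ L i)
    (hA : q < 1 → 0 < D → ∀ i, 0 < a i → (∀ k, k ≠ i → a k < a i) →
      (∀ k l, k ≠ i → l ≠ i → 0 < a k → 0 < a l → k = l) → ∀ j, a j < 0 → 0 < L j)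
    (hB : q < 1 → 0 < D → ∀ i j, 0 < a i → a j < 0 → -a j ≤ a i →
      (∀ k, k ≠ i → k ≠ j → a k = 0) → D * (a i - a j) < 3 * a i * L j) :
    ∀ i j, a i ≠ 0 → a j ≠ 0 → i = j := by
  set σ := ∑ k, a k with hσ
  have hom' : ∀ i, a i ≠ 0 → ∃ m : ℝ, 3 ≤ m ∧ ((∀ k, k ≠ i → a k ≠ a i) → m = 3) ∧
      a i * L i * m = 2 * q * lam * a i + D * σ := by
    intro i hi
    refine ⟨2 + ((univ.filter fun j => a i = a j).card : ℝ), ?_, fun h => ?_,
      by rw [← row_sum, hom i hi]⟩
    · have : 1 ≤ (univ.filter fun j => a i = a j).card := card_pos.2 ⟨i, by simp⟩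
      have : (1 : ℝ) ≤ ((univ.filter fun j => a i = a j).card : ℝ) := by exact_mod_cast this
      linarith
    · have : (univ.filter fun j => a i = a j) = {i} := by
        ext k
        simp only [mem_filter, mem_univ, true_and, mem_singleton]
        constructor
        · intro hk; by_contra hne; exact h k hne hk.symm
        · rintro rfl; rfl
      rw [this]; norm_num
  -- equal pair
  have P1 : ∀ i j, i ≠ j → a i ≠ 0 → a i = a j → L i ≤ 0 := by
    intro i j hij hi he
    obtain ⟨e1, e2, e3⟩ := quad_pair (Kmat a L) i j 1 (-1)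
    have := sec (fun k => (if k = i then 1 else 0) + (if k = j then -1 else 0)) (fun k hk => by
      have h1 : k ≠ i := by rintro rfl; exact hi hk
      have h2 : k ≠ j := by rintro rfl; exact hi (he.trans hk)
      simp [h1, h2]) (by rw [e2, he]; ring)
    rw [e1, e3] at this
    have hs := hsym i j he hi
    simp only [Kmat, he, if_true, hij, hij.symm, if_false] at this
    linarith
  -- distinct pair
  have P3 : ∀ i j, a i ≠ 0 → a j ≠ 0 → a i ≠ a j →
      3 * a j ^ 2 * L i + 3 * a i ^ 2 * L j ≤ D * (a j - a i) ^ 2 := by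
    intro i j hi hj he
    have hij : i ≠ j := by rintro rfl; exact he rfl
    obtain ⟨e1, e2, e3⟩ := quad_pair (Kmat a L) i j (a j) (-a i)
    have := sec (fun k => (if k = i then a j else 0) + (if k = j then -a i else 0)) (fun k hk => by
      have h1 : k ≠ i := by rintro rfl; exact hi hk
      have h2 : k ≠ j := by rintro rfl; exact hj hk
      simp [h1, h2]) (by rw [e2]; ring)
    rw [e1, e3] at this
    simp only [Kmat, he, he.symm, if_true, if_false] at this
    have e4 : (a j + -a i) = a j - a i := by ring
    rw [e4] at this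
    linarith
  -- triple
  have P2 : ∀ i j m, a i ≠ 0 → a j ≠ 0 → a m ≠ 0 → i ≠ j → i ≠ m → j ≠ m →
      0 < L i → 0 < L j → 0 < L m → False := by
    intro i j m hi hj hm hij him hjm li lj lm
    have d1 : a i ≠ a j := fun h => absurd (P1 i j hij hi h) (not_le.2 li)
    have d2 : a i ≠ a m := fun h => absurd (P1 i m him hi h) (not_le.2 li)
    have d3 : a j ≠ a m := fun h => absurd (P1 j m hjm hj h) (not_le.2 lj)
    obtain ⟨e1, e2, e3⟩ := quad_triple (Kmat a L) i j m (a j - a m) (a m - a i) (a i - a j)
    have := sec (fun k => (if k = i then a j - a m else 0) + (if k = j then a m - a i else 0)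
      + (if k = m then a i - a j else 0)) (fun k hk => by
      have h1 : k ≠ i := by rintro rfl; exact hi hk
      have h2 : k ≠ j := by rintro rfl; exact hj hk
      have h3 : k ≠ m := by rintro rfl; exact hm hk
      simp [h1, h2, h3]) (by rw [e2]; ring)
    rw [e1, e3] at this
    simp only [Kmat, d1, d1.symm, d2, d2.symm, d3, d3.symm, if_true, if_false] at this
    have e4 : a j - a m + (a m - a i) + (a i - a j) = 0 := by ring
    rw [e4] at this
    have q1 : 0 < (a j - a m) * (a j - a m) * (3 * L i) :=
      mul_pos (mul_self_pos.2 (sub_ne_zero.2 d3)) (by linarith)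
    have q2 : 0 ≤ (a m - a i) * (a m - a i) * (3 * L j) :=
      mul_nonneg (mul_self_nonneg _) (by linarith)
    have q3 : 0 ≤ (a i - a j) * (a i - a j) * (3 * L m) :=
      mul_nonneg (mul_self_nonneg _) (by linarith)
    nlinarith
  -- positive coordinates have positive `L` when `0 ≤ D`
  have Lpos : 0 ≤ D → ∀ i, 0 < a i → 0 < L i := by
    intro hD i hi
    obtain ⟨m, hm, -, h⟩ := hom' i hi.ne'
    have : 0 < a i * L i * m := by rw [h]; positivity
    by_contra hc
    have : a i * L i * m ≤ 0 :=
      mul_nonpos_of_nonpos_of_nonneg (mul_nonpos_of_nonneg_of_nonpos hi.le (not_lt.1 hc)) (by linarith)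
    linarith
  intro i0 j0 hi0 hj0
  by_contra hne
  by_cases hmix : ∃ j, a j < 0
  · obtain ⟨j, hj⟩ := hmix
    have hex : ∃ i, 0 < a i := by
      by_contra hc
      push Not at hc
      have : σ < 0 := by
        have := sum_lt_sum (s := univ) (f := a) (g := fun _ => 0) (fun k _ => hc k)
          ⟨j, mem_univ _, hj⟩
        simpa using this
      linarith
    rcases le_or_gt D 0 with hD | hD
    · -- scale the positive part against the negative part
      obtain ⟨i, hi⟩ := hex
      set A := ∑ k, (max (a k) 0) ^ 2 with hAdef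
      set B := ∑ k, (min (a k) 0) ^ 2 with hBdef
      set sp := ∑ k, max (a k) 0 with hsp
      set sm := ∑ k, min (a k) 0 with hsm
      have hApos : 0 < A := sum_pos' (fun k _ => sq_nonneg _)
        ⟨i, mem_univ _, by rw [max_eq_left hi.le]; positivity⟩
      have hBpos : 0 < B := sum_pos' (fun k _ => sq_nonneg _)
        ⟨j, mem_univ _, by rw [min_eq_left hj.le]; exact sq_pos_of_neg hj⟩
      have hsp0 : 0 ≤ sp := sum_nonneg fun k _ => le_max_right _ _
      have hsm0 : sm ≤ 0 := sum_nonpos fun k _ => min_le_right _ _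
      have hσ' : σ = sp + sm := by
        rw [hσ, hsp, hsm, ← sum_add_distrib]
        exact sum_congr rfl fun k _ => by simp
      let c : Fin n → ℝ := fun k => if 0 ≤ a k then B else -A
      have hv : ∀ k, c k * a k = B * max (a k) 0 - A * min (a k) 0 := by
        intro k
        by_cases h : 0 ≤ a k
        · simp [c, h]
        · simp [c, h, (not_le.1 h).le]
      have hv2 : ∀ k, c k * (c k * a k) = B ^ 2 * max (a k) 0 + A ^ 2 * min (a k) 0 := by
        intro k
        by_cases h : 0 ≤ a k
        · simp [c, h]; ring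
        · simp [c, h, (not_le.1 h).le]; ring
      have hv3 : ∀ k, c k * (c k * a k) * a k = B ^ 2 * max (a k) 0 ^ 2 + A ^ 2 * min (a k) 0 ^ 2 := by
        intro k
        by_cases h : 0 ≤ a k
        · simp [c, h]; ring
        · simp [c, h, (not_le.1 h).le]; ring
      have hv4 : ∀ k, a k * (c k * a k) = B * max (a k) 0 ^ 2 - A * min (a k) 0 ^ 2 := by
        intro k
        by_cases h : 0 ≤ a k
        · simp [c, h]; ring
        · simp [c, h, (not_le.1 h).le]; ring
      have := sec (fun k => c k * a k) (fun k hk => by simp [hk]) (by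
        simp only [hv4, sum_sub_distrib, ← mul_sum, ← hAdef, ← hBdef]; ring)
      have e1 : ∀ k, ∑ l, c k * a k * (c l * a l) * Kmat a L k l
          = 2 * q * lam * (c k * (c k * a k) * a k) + D * σ * (c k * (c k * a k)) := by
        intro k
        by_cases hk : a k = 0
        · simp [hk]
        · have : ∀ l, c k * a k * (c l * a l) * Kmat a L k l
              = c k * (c k * a k) * (a l * Kmat a L k l) := by
            intro l
            by_cases h : a k = a l
            · have : c l = c k := by simp only [c, h]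
              rw [this]; ring
            · simp [Kmat, h]
          simp only [this, ← mul_sum, hom k hk]; ring
      simp only [e1, hv3] at this
      simp only [hv2, sum_add_distrib, ← mul_sum, ← hAdef, ← hBdef, ← hsp, ← hsm] at this
      simp only [hv, sum_sub_distrib, ← mul_sum, ← hsp, ← hsm] at this
      rw [hσ'] at this
      have q1 : 0 < 2 * q * lam * (B ^ 2 * A + A ^ 2 * B) := by positivity
      have q2 : 0 ≤ D * (sp * sm) * (A + B) ^ 2 :=
        mul_nonneg (mul_nonneg_of_nonpos_of_nonpos hD (mul_nonpos_of_nonneg_of_nonpos hsp0 hsm0))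
          (sq_nonneg _)
      nlinarith
    · rcases le_or_gt 1 q with hq1 | hq1
      · obtain ⟨i, hi⟩ := hex
        have h3 := P3 i j hi.ne' hj.ne (by linarith)
        have l1 := hconv hq1 i hi.ne'
        have l2 := hconv hq1 j hj.ne
        have q1 : 0 ≤ a j ^ 2 * (L i - D) := mul_nonneg (sq_nonneg _) (by linarith)
        have q2 : 0 ≤ a i ^ 2 * (L j - D) := mul_nonneg (sq_nonneg _) (by linarith)
        have q3 : 0 < D * a i ^ 2 := by positivity
        have q4 : 0 ≤ D * (a i + a j) ^ 2 := by positivity
        have q5 : 0 ≤ D * a j ^ 2 := by positivity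
        nlinarith
      · obtain ⟨i, -, hmax⟩ := exists_max_image univ a ⟨j, mem_univ _⟩
        have hi : 0 < a i := by
          obtain ⟨i', hi'⟩ := hex
          exact hi'.trans_le (hmax i' (mem_univ _))
        have hlt : ∀ k, k ≠ i → a k < a i := fun k hk =>
          lt_of_le_of_ne (hmax k (mem_univ _)) fun h =>
            absurd (P1 i k hk.symm hi.ne' h.symm) (not_le.2 (Lpos hD.le i hi))
        have h2 : ∀ k l, k ≠ i → l ≠ i → 0 < a k → 0 < a l → k = l := by
          intro k l hk hl pk pl
          by_contra hkl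
          exact P2 i k l hi.ne' pk.ne' pl.ne' hk.symm hl.symm hkl (Lpos hD.le i hi)
            (Lpos hD.le k pk) (Lpos hD.le l pl)
        have hall : ∀ k, a k ≠ 0 → 0 < L k := by
          intro k hk
          rcases lt_or_gt_of_ne hk with h | h
          · exact hA hq1 hD i hi hlt h2 k h
          · exact Lpos hD.le k h
        have hij : i ≠ j := by rintro rfl; linarith
        have hz : ∀ k, k ≠ i → k ≠ j → a k = 0 := by
          intro k hk hk'
          by_contra hc
          exact P2 i j k hi.ne' hj.ne hc hij hk.symm hk'.symm (hall _ hi.ne') (hall _ hj.ne)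
            (hall _ hc)
        have hσ2 : σ = a i + a j := by
          rw [hσ, ← sum_subset (subset_univ {i, j}), sum_pair hij]
          intro k _ hk
          simp only [mem_insert, mem_singleton, not_or] at hk
          exact hz k hk.1 hk.2
        have hb := hB hq1 hD i j hi hj (by linarith) hz
        obtain ⟨m1, -, hm1, e1⟩ := hom' i hi.ne'
        obtain ⟨m2, -, hm2, e2⟩ := hom' j hj.ne
        rw [hm1 fun k hk => (hlt k hk).ne] at e1
        rw [hm2 fun k hk => by
          by_cases hki : k = i
          · rw [hki]; linarith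
          · rw [hz k hki hk]; exact hj.ne'] at e2
        have h3 := P3 i j hi.ne' hj.ne (by linarith)
        rw [hσ2] at e1 e2
        set s := a i
        set b := -a j with hbdef
        have hb0 : 0 < b := by linarith
        have ej : a j = -b := by linarith
        rw [ej] at e1 e2 h3 hb
        -- multiply the pair inequality by `s`
        have h4 : s * (3 * (-b) ^ 2 * L i + 3 * s ^ 2 * L j) ≤ s * (D * (-b - s) ^ 2) :=
          mul_le_mul_of_nonneg_left h3 hi.le
        have h5 : s * (3 * (-b) ^ 2 * L i) = 3 * s * b ^ 2 * L j + D * (s - b) * (s + b) * b := by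
          linear_combination b ^ 2 * e1 + s * b * e2
        have h6 : 0 < (s ^ 2 + b ^ 2) * (3 * s * L j - D * (s + b)) :=
          mul_pos (by positivity) (by linarith)
        nlinarith
  · push Not at hmix
    have pi0 : 0 < a i0 := lt_of_le_of_ne (hmix _) hi0.symm
    have pj0 : 0 < a j0 := lt_of_le_of_ne (hmix _) hj0.symm
    have hle : ∀ k, a k ≤ σ := fun k => single_le_sum (fun l _ => hmix l) (mem_univ k)
    have hσpos : 0 < σ := pi0.trans_le (hle _)
    have hD : 0 ≤ D := nonneg_of_mul_nonneg_left (hskew hmix) hσpos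
    have hdist : ∀ i, 0 < a i → ∀ k, k ≠ i → a k ≠ a i := fun i hi k hk h =>
      absurd (P1 i k hk.symm hi.ne' h.symm) (not_le.2 (Lpos hD i hi))
    have hL : ∀ i, 0 < a i → D < 3 * L i := by
      intro i hi
      obtain ⟨m, -, hm, e⟩ := hom' i hi.ne'
      rw [hm (hdist i hi)] at e
      have q1 : 0 < 2 * q * lam * a i := by positivity
      have q2 : D * a i ≤ D * σ := mul_le_mul_of_nonneg_left (hle i) hD
      have : a i * D < a i * (3 * L i) := by linarith
      exact lt_of_mul_lt_mul_left this hi.le
    have h3 := P3 i0 j0 hi0 hj0 (hdist j0 pj0 i0 hne)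
    have q1 : 0 < a j0 ^ 2 * (3 * L i0 - D) := mul_pos (by positivity) (by linarith [hL i0 pi0])
    have q2 : 0 < a i0 ^ 2 * (3 * L j0 - D) := mul_pos (by positivity) (by linarith [hL j0 pj0])
    have q3 : 0 ≤ D * (a i0 * a j0) := by positivity
    nlinarith

end

end Pool.Agent.MP_c22ba5_pr.H86
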