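import Pool.Agent.MP_c22ba5_pr.H86.Rot

/-! The contour representation of `α L - β D` for a negative coordinate. -/

open MeasureTheory Set Filter Topology Complex

namespace Pool.Agent.MP_c22ba5_pr.H86

variable {n : ℕ}

noncomputable def Ψ0 (a : Fin n → ℝ) (q : ℝ) (ξ : ℂ) : ℂ := Φ a ξ * cexp (-q * log ξ)

noncomputable def GG (a : Fin n → ℝ) (q b α β : ℝ) (ξ : ℂ) : ℂ :=
  Ψ0 a q ξ * (-I * ((α - β * (1 - 2 * I * b * ξ)) / (1 - 2 * I * b * ξ) ^ 2))

lemma norm_Ψ0 (a : Fin n → ℝ) (q : ℝ) {ξ : ℂ} (h0 : ξ ≠ 0) (h : ∀ k, 1 + 2 * I * a k * ξ ≠ 0) :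
    ‖Ψ0 a q ξ‖ = Real.exp (-(∑ k, a k) * ξ.im)
      * (∏ k, ‖1 + 2 * I * a k * ξ‖ ^ (-(1 / 2) : ℝ)) * ‖ξ‖ ^ (-q) := by
  have e1 : ∀ k, ‖1 + 2 * I * a k * ξ‖ ^ (-(1 / 2) : ℝ)
      = Real.exp (Real.log ‖1 + 2 * I * a k * ξ‖ * -(1 / 2)) := fun k =>
    Real.rpow_def_of_pos (norm_pos_iff.2 (h k)) _
  rw [Ψ0, Φ, norm_mul, norm_exp, norm_exp, Real.rpow_def_of_pos (norm_pos_iff.2 h0)]
  simp only [e1, ← Real.exp_sum, ← Real.exp_add]
  congr 1
  simp [log_re, ← Finset.sum_mul]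
  ring

lemma differentiableOn_GG (a : Fin n → ℝ) (q : ℝ) {b : ℝ} (hb : 0 < b) (α β : ℝ) :
    DifferentiableOn ℂ (GG a q b α β) {z | 0 < z.re} := by
  intro z hz
  have hz : 0 < z.re := hz
  refine DifferentiableAt.differentiableWithinAt ?_
  have h1 : ∀ k, 1 + 2 * I * a k * z ∈ slitPlane := by
    intro k
    by_cases hk : a k = 0
    · left; simp [hk]
    · right; simp [hk, hz.ne']
  have h2 : z ∈ slitPlane := Or.inl hz
  have h3 : (1 - 2 * I * b * z) ^ 2 ≠ 0 := by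
    refine pow_ne_zero 2 fun h => ?_
    have := congrArg Complex.im h
    simp [hb.ne', hz.ne'] at this
  have h4 : DifferentiableAt ℂ (fun z : ℂ => ∑ k, log (1 + 2 * I * a k * z)) z :=
    DifferentiableAt.fun_sum fun k _ => DifferentiableAt.clog (by fun_prop) (h1 k)
  have h5 : DifferentiableAt ℂ (fun z : ℂ => log z) z := differentiableAt_id.clog h2
  have h6 : DifferentiableAt ℂ (fun z : ℂ => ((α : ℂ) - β * (1 - 2 * I * b * z))
      / (1 - 2 * I * b * z) ^ 2) z :=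
    DifferentiableAt.fun_div (c := fun z : ℂ => (α : ℂ) - β * (1 - 2 * I * b * z))
      (d := fun z : ℂ => (1 - 2 * I * b * z) ^ 2) (by fun_prop) (by fun_prop) h3
  unfold GG Ψ0 Φ
  refine DifferentiableAt.fun_mul (DifferentiableAt.fun_mul (DifferentiableAt.cexp ?_)
    (DifferentiableAt.cexp (h5.const_mul _))) (h6.const_mul _)
  exact DifferentiableAt.fun_sub (by fun_prop) (h4.const_mul _)

lemma norm_GG_le (a : Fin n → ℝ) (hσ : 0 ≤ ∑ k, a k) {q b : ℝ} (hq : 0 < q) (hb : 0 < b) (α β : ℝ)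
    {x y : ℝ} (hx : 0 < x) (hy : 0 ≤ y) {t : ℝ} (ht : 0 < t) (hle : t ≤ x ∨ t ≤ y)
    (m : Fin n → ℝ) (hm : ∀ k, 0 < m k) (hmle : ∀ k, m k ≤ ‖1 + 2 * I * a k * (x + y * I)‖) :
    ‖GG a q b α β (x + y * I)‖ ≤ (2 * (|α| + |β|) * (t ^ (-q) / (1 + 2 * b * t)))
      * ∏ k, m k ^ (-(1 / 2) : ℝ) := by
  set ξ : ℂ := x + y * I with hξ
  have hre : ξ.re = x := by simp [hξ]
  have him : ξ.im = y := by simp [hξ]
  have htξ : t ≤ ‖ξ‖ := by
    rcases hle with h | h
    · exact h.trans (hre ▸ re_le_norm ξ)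
    · exact h.trans (him ▸ im_le_norm ξ)
  have h0 : ξ ≠ 0 := norm_pos_iff.1 (ht.trans_le htξ)
  set u : ℂ := 1 - 2 * I * b * ξ with hu
  have ure : u.re = 1 + 2 * b * y := by simp [hu, him]
  have uim : u.im = -(2 * b * x) := by simp [hu, hre]
  have u1 : 1 ≤ ‖u‖ := le_trans (by rw [ure]; nlinarith) (re_le_norm u)
  have u2 : 2 * b * t ≤ ‖u‖ := by
    rcases hle with h | h
    · refine le_trans ?_ (abs_im_le_norm u)
      rw [uim, abs_neg, abs_of_pos (by positivity)]; gcongr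
    · refine le_trans ?_ (re_le_norm u)
      rw [ure]; nlinarith
  have u3 : ‖-I * ((α - β * u) / u ^ 2)‖ ≤ 2 * (|α| + |β|) / (1 + 2 * b * t) := by
    rw [norm_mul, norm_neg, norm_I, one_mul, norm_div, norm_pow,
      div_le_div_iff₀ (by positivity) (by positivity)]
    have h1 : ‖(α : ℂ) - β * u‖ ≤ (|α| + |β|) * ‖u‖ := by
      refine (norm_sub_le _ _).trans ?_
      rw [norm_mul, norm_real, norm_real, Real.norm_eq_abs, Real.norm_eq_abs]
      nlinarith [abs_nonneg α]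
    calc ‖(α : ℂ) - β * u‖ * (1 + 2 * b * t) ≤ ((|α| + |β|) * ‖u‖) * (2 * ‖u‖) := by
          gcongr; linarith
      _ = _ := by ring
  rw [GG, norm_mul, norm_Ψ0 a q h0 fun k => norm_pos_iff.1 ((hm k).trans_le (hmle k))]
  have v1 : Real.exp (-(∑ k, a k) * ξ.im) ≤ 1 := by
    rw [Real.exp_le_one_iff, him]; nlinarith
  have v2 : ∏ k, ‖1 + 2 * I * a k * ξ‖ ^ (-(1 / 2) : ℝ) ≤ ∏ k, m k ^ (-(1 / 2) : ℝ) :=
    Finset.prod_le_prod (fun k _ => by positivity) fun k _ =>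
      Real.rpow_le_rpow_of_nonpos (hm k) (hmle k) (by norm_num)
  have v3 : ‖ξ‖ ^ (-q) ≤ t ^ (-q) := Real.rpow_le_rpow_of_nonpos ht htξ (by linarith)
  have v4 : 0 ≤ ∏ k, ‖1 + 2 * I * a k * ξ‖ ^ (-(1 / 2) : ℝ) :=
    Finset.prod_nonneg fun k _ => by positivity
  calc _ ≤ (1 * (∏ k, m k ^ (-(1 / 2) : ℝ)) * t ^ (-q)) * (2 * (|α| + |β|) / (1 + 2 * b * t)) := by
        gcongr
        · exact mul_nonneg (mul_nonneg zero_le_one (v4.trans v2)) (by positivity)
        · exact mul_nonneg zero_le_one (v4.trans v2)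
    _ = _ := by ring

lemma ae_nonsing (a : Fin n → ℝ) : ∀ᵐ η : ℝ, ∀ k, 1 - 2 * a k * η ≠ 0 := by
  rw [ae_all_iff]
  intro k
  by_cases h : a k = 0
  · simp [h]
  · filter_upwards [Measure.ae_ne volume (1 / (2 * a k))] with η hη h0
    apply hη
    field_simp; linarith

lemma arg_eq (t η : ℝ) : (1 + 2 * I * t * (η * I) : ℂ) = ((1 - 2 * t * η : ℝ) : ℂ) := by
  push_cast; linear_combination (2 * t * η : ℂ) * I_sq

lemma tendsto_GG (a : Fin n → ℝ) (q : ℝ) {b : ℝ} (hb : 0 < b) (α β : ℝ) {η : ℝ} (hη : 0 < η)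
    (hs : ∀ k, 1 - 2 * a k * η ≠ 0) :
    Tendsto (fun ε : ℝ => GG a q b α β (ε + η * I)) (𝓝[>] 0) (𝓝 (GG a q b α β (η * I))) := by
  have t0 : Tendsto (fun ε : ℝ => (ε + η * I : ℂ)) (𝓝[>] 0) (𝓝 (η * I)) := by
    have : Continuous fun ε : ℝ => (ε + η * I : ℂ) := by fun_prop
    simpa using (this.tendsto 0).mono_left (nhdsWithin_le_nhds (s := Ioi 0))
  have t1 : ∀ k, Tendsto (fun ε : ℝ => log (1 + 2 * I * a k * (ε + η * I))) (𝓝[>] 0)
      (𝓝 (log (1 + 2 * I * a k * (η * I)))) := by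
    intro k
    have t2 := (t0.const_mul (2 * I * a k)).const_add 1
    rcases lt_or_gt_of_ne (hs k) with h | h
    · have hk : 0 < a k := by by_contra hc; nlinarith [not_lt.1 hc]
      have := continuousWithinAt_log_of_re_neg_of_im_zero (z := 1 + 2 * I * a k * (η * I))
        (by rw [arg_eq]; simpa using h) (by rw [arg_eq]; simp)
      refine this.tendsto.comp (tendsto_nhdsWithin_of_tendsto_nhds_of_eventually_within _ t2 ?_)
      filter_upwards [self_mem_nhdsWithin] with ε hε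
      have hε : 0 < ε := hε
      change 0 ≤ (1 + 2 * I * a k * (ε + η * I) : ℂ).im
      simp
      positivity
    · exact t2.clog (Or.inl (by rw [arg_eq]; simpa using h))
  have t3 := t0.clog (Or.inr (by simpa using hη.ne'))
  have h3 : (1 - 2 * I * b * (η * I) : ℂ) ^ 2 ≠ 0 := by
    refine pow_ne_zero 2 fun h => ?_
    have := congrArg Complex.re h
    simp at this
    nlinarith
  have t4 := (t0.const_mul (2 * I * b)).const_sub 1
  unfold GG Ψ0 Φ
  exact ((((t0.const_mul _).sub ((tendsto_finsetSum _ fun k _ => t1 k).const_mul _)).cexp).mul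
    (t3.const_mul _).cexp).mul ((((t4.const_mul _).const_sub _).div (t4.pow 2) h3).const_mul _)

lemma rotate_GG (a : Fin n → ℝ) (hσ : 0 ≤ ∑ k, a k) {q b : ℝ} (hq : 0 < q) (hq1 : q < 1)
    (hb : 0 < b) (α β : ℝ) (hinj : ∀ k l, 0 < a k → a k = a l → k = l) :
    IntegrableOn (fun x : ℝ => GG a q b α β x) (Ioi 0) ∧
    IntegrableOn (fun η : ℝ => GG a q b α β (η * I)) (Ioi 0) ∧
      ∫ x in Ioi (0 : ℝ), GG a q b α β x = I * ∫ η in Ioi (0 : ℝ), GG a q b α β (η * I) := by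
  have hK := (integrableOn_K hq hq1 hb).const_mul (2 * (|α| + |β|))
  have hG := differentiableOn_GG a q hb α β
  have hreal : IntegrableOn (fun x : ℝ => GG a q b α β x) (Ioi 0) := by
    refine Integrable.mono' hK ((hG.continuousOn.comp continuous_ofReal.continuousOn
      fun x hx => by simpa using hx).aestronglyMeasurable measurableSet_Ioi) ?_
    refine (ae_restrict_iff' measurableSet_Ioi).2 (ae_of_all _ fun x hx => ?_)
    have := norm_GG_le a hσ hq hb α β (x := x) (y := 0) hx le_rfl hx (Or.inl le_rfl) (fun _ => 1)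
      (fun _ => one_pos) (fun k => le_trans (by simp) (re_le_norm _))
    simpa using this
  refine ⟨hreal, rotate (δ := q) (C := 2 * (|α| + |β|) / (2 * b)) hq hG hreal
    (integrableOn_prod_sing a hK (fun η hη => ?_) Finset.univ fun k _ l _ => hinj k l) ?_ ?_ ?_⟩
  · refine ContinuousAt.mul continuousAt_const (ContinuousAt.div
      (continuousAt_id.rpow_const (Or.inl hη.ne')) (by fun_prop) (by positivity))
  · filter_upwards [ae_nonsing a] with η hs hη ε hε
    refine norm_GG_le a hσ hq hb α β hε hη.le hη (Or.inr le_rfl) _ (fun k => abs_pos.2 (hs k))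
      fun k => le_trans (le_of_eq ?_) (abs_re_le_norm _)
    simp; congr 1
  · filter_upwards [ae_nonsing a] with η hs hη using tendsto_GG a q hb α β hη hs
  · have : ∀ᶠ R : ℝ in atTop, ∀ k, a k = 0 ∨ 1 ≤ |a k| * R := by
      rw [eventually_all]
      intro k
      by_cases h : a k = 0
      · simp [h]
      · filter_upwards [eventually_ge_atTop |a k|⁻¹] with R hR
        right
        rwa [inv_le_iff_one_le_mul₀' (abs_pos.2 h)] at hR
    filter_upwards [this, eventually_gt_atTop 0] with R hR hR0 x y hx hy hxy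
    have := norm_GG_le a hσ hq hb α β hx hy hR0 (hxy.imp (fun h => h.ge) fun h => h.ge) (fun _ => 1)
      (fun _ => one_pos) (fun k => by
        rcases hR k with h | h
        · simp [h]
        rcases hxy with rfl | rfl
        · refine le_trans ?_ (abs_im_le_norm _)
          simp [abs_mul, abs_of_pos hx]; nlinarith
        · refine le_trans ?_ (abs_re_le_norm _)
          have e : (1 + 2 * I * a k * (x + y * I) : ℂ).re = 1 - 2 * (a k * y) := by simp; ring
          have := abs_sub_abs_le_abs_sub (2 * (a k * y)) 1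
          rw [abs_mul, abs_mul, abs_of_pos hR0, abs_two, abs_one, abs_sub_comm] at this
          rw [e]; linarith)
    refine this.trans ?_
    simp only [Real.one_rpow, Finset.prod_const_one, mul_one]
    rw [Real.rpow_sub_one hR0.ne']
    calc _ ≤ 2 * (|α| + |β|) * (R ^ (-q) / (2 * b * R)) := by gcongr; linarith
      _ = _ := by field_simp

/-- the real weight on the imaginary axis -/
noncomputable def ω (a : Fin n → ℝ) (q η : ℝ) : ℝ := (Ψ0 a q (η * I)).re

lemma I_mul_GG (a : Fin n → ℝ) (q b α β η : ℝ) : (I * GG a q b α β (η * I)).re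
    = ω a q η * ((α - β * (1 + 2 * b * η)) / (1 + 2 * b * η) ^ 2) := by
  have e : (1 - 2 * I * b * (η * I) : ℂ) = ((1 + 2 * b * η : ℝ) : ℂ) := by
    push_cast; linear_combination -(2 * b * η : ℂ) * I_sq
  rw [GG, e, ω, ← re_mul_ofReal]
  congr 1
  push_cast
  linear_combination -(Ψ0 a q (η * I) * ((α - β * (1 + 2 * b * η)) / (1 + 2 * b * η) ^ 2)) * I_sq

lemma contour_rep {a : Fin n → ℝ} (hσ : 0 ≤ ∑ k, a k) {q : ℝ} (hq : 0 < q) (hq1 : q < 1)
    (h : IsMaxi q a) {j : Fin n} (hj : a j < 0) (α β : ℝ)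
    (hinj : ∀ k l, 0 < a k → a k = a l → k = l) :
    IntegrableOn (fun η => ω a q η * ((α - β * (1 + 2 * -a j * η)) / (1 + 2 * -a j * η) ^ 2)) (Ioi 0)
    ∧ Iq q * (α * Ll q a j - β * Dd q a) = 2 * -a j * ∫ η in Ioi (0 : ℝ),
      ω a q η * ((α - β * (1 + 2 * -a j * η)) / (1 + 2 * -a j * η) ^ 2) := by
  obtain ⟨i1, i2, e⟩ := rotate_GG a hσ hq hq1 (b := -a j) (by linarith) α β hinj
  have i3 := i2.const_mul I
  simp only [← I_mul_GG]
  refine ⟨i3.re, ?_⟩
  have e1 := Complex.reCLM.integral_comp_comm i3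
  have e2 := Complex.reCLM.integral_comp_comm i1
  simp only [reCLM_apply] at e1 e2
  rw [e1, integral_const_mul, ← e, ← e2, ← integral_const_mul]
  have pw : PG fun x : Fin n → ℝ => β + (-α - β) * x j ^ 2 + α / 3 * x j ^ 4 :=
    ((PG.const _).add (((PG.apply j).pow 2).const_mul _)).add (((PG.apply j).pow 4).const_mul _)
  have hw0 : ∫ x, (β + (-α - β) * x j ^ 2 + α / 3 * x j ^ 4) ∂μ n = 0 := by
    have := moments j (m := fun _ => 1) (PG.const _) (fun _ _ => rfl) β (-α - β) (α / 3) 0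
    rw [show β + (-α - β) + 3 * (α / 3) + 15 * 0 = 0 by ring, zero_mul] at this
    simpa using this
  obtain ⟨-, e3⟩ := fourier_rep hq (by linarith) a pw hw0
  have p := (PG.abs_rpow hq.le).comp (PG_S a)
  have pL : PG fun x : Fin n → ℝ => (x j ^ 4 / 3 - x j ^ 2) * |S a x| ^ q := by
    have := ((((PG.apply j).pow 4).const_mul (1 / 3)).sub ((PG.apply j).pow 2)).mul p
    convert this using 3; ring
  have pD : PG fun x : Fin n → ℝ => (x j ^ 2 - 1) * |S a x| ^ q :=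
    (((PG.apply j).pow 2).sub (PG.const 1)).mul p
  have e4 : α * Ll q a j - β * Dd q a
      = ∫ x, (β + (-α - β) * x j ^ 2 + α / 3 * x j ^ 4) * |S a x| ^ q ∂μ n := by
    rw [Ll_eq hq h hj.ne, Dd_eq hq h hj.ne, ← integral_const_mul, ← integral_const_mul,
      ← integral_sub (pL.const_mul _).integrable (pD.const_mul _).integrable]
    congr 1; ext x; ring
  rw [e4, e3]
  refine setIntegral_congr_fun measurableSet_Ioi fun ξ hξ => ?_
  have hξ0 : 0 < ξ := hξ
  simp only [cos_comb]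
  have e5 : cexp (-q * log ξ) = ((ξ * ξ ^ (-q - 1) : ℝ) : ℂ) := by
    rw [Real.rpow_sub_one hξ0.ne', mul_div_cancel₀ _ hξ0.ne', Real.rpow_def_of_pos hξ0,
      ← ofReal_log hξ0.le]
    push_cast; congr 1; ring
  rw [← neg_re, ← re_mul_ofReal, ← re_ofReal_mul, GG, Ψ0, e5]
  congr 1
  have hu := u_ne (a j) ξ
  have e6 : (1 - 2 * I * ((-a j : ℝ) : ℂ) * ξ : ℂ) = 1 + 2 * I * a j * ξ := by push_cast; ring
  rw [e6]
  push_cast
  field_simp
  ring

lemma ω_eq (a : Fin n → ℝ) (q : ℝ) {η : ℝ} (hη : 0 < η) (hs : ∀ k, 1 - 2 * a k * η ≠ 0) :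
    ω a q η = Real.exp (-(∑ k, a k) * η) * (∏ k, |1 - 2 * a k * η| ^ (-(1 / 2) : ℝ)) * η ^ (-q)
      * Real.cos ((∑ k, arg ((1 - 2 * a k * η : ℝ) : ℂ)) / 2 + q * (Real.pi / 2)) := by
  have h0 : (η * I : ℂ) ≠ 0 := mul_ne_zero (by exact_mod_cast hη.ne') I_ne_zero
  have h1 := norm_Ψ0 a q h0 fun k => by rw [arg_eq]; exact_mod_cast hs k
  simp only [arg_eq, norm_real, Real.norm_eq_abs, norm_mul, norm_I, mul_one, abs_of_pos hη,
    mul_im, ofReal_re, I_im, ofReal_im, I_re, mul_zero, add_zero] at h1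
  rw [← h1, ω, Ψ0, Φ, ← Complex.exp_add, exp_re, norm_exp, ← Real.cos_neg]
  congr 2
  simp only [arg_eq]
  have : (η * I : ℂ).arg = Real.pi / 2 := by rw [arg_real_mul _ hη, arg_I]
  simp [log_im, this]
  ring

end Pool.Agent.MP_c22ba5_pr.H86
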