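import Pool.Agent.MP_c22ba5_pr.H86.Contour

/-! The two inequalities for a negative coordinate and the conclusion. -/

open MeasureTheory Set Filter Topology

namespace Pool.Agent.MP_c22ba5_pr.H86

variable {n : ℕ} {a : Fin n → ℝ} {q : ℝ}

lemma pos_of_mul_pos_of_pos_left' {x y : ℝ} (h : 0 < x * y) (hx : 0 < x) : 0 < y :=
  (mul_pos_iff_of_pos_left hx).1 h

lemma one_sub_pos {i : Fin n} (hi : 0 < a i) (hlt : ∀ k, k ≠ i → a k < a i) {η : ℝ} (hη : 0 < η)
    (h : η < 1 / (2 * a i)) (k : Fin n) : 0 < 1 - 2 * a k * η := by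
  rw [lt_div_iff₀ (by positivity)] at h
  have : a k ≤ a i := by
    by_cases hk : k = i
    · rw [hk]
    · exact (hlt k hk).le
  nlinarith

lemma ω_left {i : Fin n} (hi : 0 < a i) (hlt : ∀ k, k ≠ i → a k < a i) {η : ℝ} (hη : 0 < η)
    (h : η < 1 / (2 * a i)) :
    ω a q η = Real.exp (-(∑ k, a k) * η) * (∏ k, (1 - 2 * a k * η) ^ (-(1 / 2) : ℝ)) * η ^ (-q)
      * Real.cos (q * (Real.pi / 2)) := by
  have hp := one_sub_pos hi hlt hη h
  rw [ω_eq a q hη fun k => (hp k).ne']
  simp only [fun k => abs_of_pos (hp k), fun k => Complex.arg_ofReal_of_nonneg (hp k).le]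
  simp

lemma cos_q_pos (hq : 0 < q) (hq1 : q < 1) : 0 < Real.cos (q * (Real.pi / 2)) :=
  Real.cos_pos_of_mem_Ioo ⟨by nlinarith [Real.pi_pos], by nlinarith [Real.pi_pos]⟩

lemma ω_pos (hq : 0 < q) (hq1 : q < 1) {i : Fin n} (hi : 0 < a i) (hlt : ∀ k, k ≠ i → a k < a i)
    {η : ℝ} (hη : 0 < η) (h : η < 1 / (2 * a i)) : 0 < ω a q η := by
  have hp := one_sub_pos hi hlt hη h
  rw [ω_left hi hlt hη h]
  have := cos_q_pos hq hq1
  have : 0 < ∏ k, (1 - 2 * a k * η) ^ (-(1 / 2) : ℝ) :=
    Finset.prod_pos fun k _ => Real.rpow_pos_of_pos (hp k) _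
  positivity

lemma ω_nonpos (hq : 0 < q) (hq1 : q < 1) {i : Fin n} (hi : 0 < a i)
    (h2 : ∀ k l, k ≠ i → l ≠ i → 0 < a k → 0 < a l → k = l)
    {η : ℝ} (h : 1 / (2 * a i) < η) (hs : ∀ k, 1 - 2 * a k * η ≠ 0) : ω a q η ≤ 0 := by
  have hη : 0 < η := lt_trans (by positivity) h
  rw [ω_eq a q hη hs]
  refine mul_nonpos_of_nonneg_of_nonpos (mul_nonneg (mul_nonneg (Real.exp_pos _).le
    (Finset.prod_nonneg fun k _ => by positivity)) (by positivity)) ?_
  rw [div_lt_iff₀ (by positivity)] at h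
  have a1 : Complex.arg ((1 - 2 * a i * η : ℝ) : ℂ) = Real.pi :=
    Complex.arg_ofReal_of_neg (by linarith)
  have a2 : ∀ k, 0 ≤ Complex.arg ((1 - 2 * a k * η : ℝ) : ℂ) := fun k =>
    Complex.arg_nonneg_iff.2 (by simp)
  have a3 : ∀ k, ¬ 0 < a k → Complex.arg ((1 - 2 * a k * η : ℝ) : ℂ) = 0 := fun k hk =>
    Complex.arg_ofReal_of_nonneg (by nlinarith [not_lt.1 hk])
  rw [← Finset.add_sum_erase _ _ (Finset.mem_univ i), a1]
  have b1 : 0 ≤ ∑ k ∈ Finset.univ.erase i, Complex.arg ((1 - 2 * a k * η : ℝ) : ℂ) :=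
    Finset.sum_nonneg fun k _ => a2 k
  have b2 : ∑ k ∈ Finset.univ.erase i, Complex.arg ((1 - 2 * a k * η : ℝ) : ℂ) ≤ Real.pi := by
    by_cases hex : ∃ k, k ≠ i ∧ 0 < a k
    · obtain ⟨k, hk, pk⟩ := hex
      rw [Finset.sum_eq_single k (fun l hl hlk => a3 l fun pl =>
        hlk (h2 l k (Finset.ne_of_mem_erase hl) hk pl pk)) (fun h => absurd (by simpa using hk) h)]
      exact Complex.arg_le_pi _
    · rw [Finset.sum_eq_zero fun l hl => a3 l fun pl => hex ⟨l, Finset.ne_of_mem_erase hl, pl⟩]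
      exact Real.pi_pos.le
  exact Real.cos_nonpos_of_pi_div_two_le_of_le (by nlinarith [Real.pi_pos])
    (by nlinarith [Real.pi_pos])

lemma inj_of {i : Fin n} (hlt : ∀ k, k ≠ i → a k < a i)
    (h2 : ∀ k l, k ≠ i → l ≠ i → 0 < a k → 0 < a l → k = l) :
    ∀ k l, 0 < a k → a k = a l → k = l := by
  intro k l pk he
  by_cases hk : k = i
  · by_contra hne
    have := hlt l (fun h => hne (hk.trans h.symm))
    rw [← he, hk] at this
    exact lt_irrefl _ this
  · by_cases hl : l = i
    · have := hlt k hk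
      rw [he, hl] at this
      exact absurd this (lt_irrefl _)
    · exact h2 k l hk hl pk (he ▸ pk)

lemma ineqA (hσ : 0 ≤ ∑ k, a k) (hq : 0 < q) (hq1 : q < 1) (h : IsMaxi q a) {i : Fin n}
    (hi : 0 < a i) (hlt : ∀ k, k ≠ i → a k < a i)
    (h2 : ∀ k l, k ≠ i → l ≠ i → 0 < a k → 0 < a l → k = l) {j : Fin n} (hj : a j < 0) :
    Dd q a ≤ (1 + 2 * -a j * (1 / (2 * a i))) * Ll q a j := by
  obtain ⟨-, e⟩ := contour_rep hσ hq hq1 h hj (1 + 2 * -a j * (1 / (2 * a i))) 1 (inj_of hlt h2)
  have : 0 ≤ Iq q * ((1 + 2 * -a j * (1 / (2 * a i))) * Ll q a j - 1 * Dd q a) := by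
    rw [e]
    refine mul_nonneg (by linarith) (setIntegral_nonneg_ae measurableSet_Ioi ?_)
    filter_upwards [ae_nonsing a] with η hs hη
    have hη : 0 < η := hη
    have e2 : 1 + 2 * -a j * (1 / (2 * a i)) - 1 * (1 + 2 * -a j * η)
        = 2 * -a j * (1 / (2 * a i) - η) := by ring
    rw [e2]
    rcases lt_trichotomy η (1 / (2 * a i)) with h3 | h3 | h3
    · exact mul_nonneg (ω_pos hq hq1 hi hlt hη h3).le
        (div_nonneg (mul_nonneg (by linarith) (by linarith)) (sq_nonneg _))
    · rw [h3]; simp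
    · exact mul_nonneg_of_nonpos_of_nonpos (ω_nonpos hq hq1 hi h2 h3 hs)
        (div_nonpos_of_nonpos_of_nonneg (mul_nonpos_of_nonneg_of_nonpos (by linarith) (by linarith))
          (sq_nonneg _))
  have := nonneg_of_mul_nonneg_right this (Iq_pos hq (by linarith))
  linarith

lemma left_integral_pos (hq : 0 < q) (hq1 : q < 1) {s b c : ℝ} (hb : 0 < b) (hbs : b ≤ s)
    (hc : 0 < c) {h : ℝ → ℝ} (hi : IntervalIntegrable h volume 0 (1 / (2 * s)))
    (he : ∀ η ∈ Ioo 0 (1 / (2 * s)), h η = c * (Real.exp (-(s - b) * η) * η ^ (-q)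
      * (1 - 2 * s * η) ^ (-(1 / 2) : ℝ) * (1 + 2 * b * η) ^ (-(5 / 2) : ℝ))) :
    0 < ∫ η in (0 : ℝ)..1 / (2 * s), h η * (3 * s - (s + b) * (1 + 2 * b * η)) := by
  have hs : 0 < s := hb.trans_le hbs
  have h1 : (0 : ℝ) < 1 / (2 * s) := by positivity
  set B : ℝ → ℝ := fun η => s * ((1 - q) * ((1 - 2 * s * η) * (1 + 2 * b * η))
    - s * η * (1 + 2 * b * η) - 3 * b * η * (1 - 2 * s * η)
    - (s - b) * η * ((1 - 2 * s * η) * (1 + 2 * b * η))) with hB
  have i1 : IntervalIntegrable (fun η => h η * B η) volume 0 (1 / (2 * s)) :=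
    hi.mul_continuousOn (by simp only [hB]; fun_prop)
  have i2 : IntervalIntegrable (fun η => h η * (3 * s - (s + b) * (1 + 2 * b * η))) volume 0
      (1 / (2 * s)) := hi.mul_continuousOn (by fun_prop)
  have z : ∫ η in (0 : ℝ)..1 / (2 * s), h η * B η = 0 := by
    rw [intervalIntegral.integral_eq_sub_of_hasDerivAt_of_le
      (f := fun η => c * s * (Real.exp (-(s - b) * η) * η ^ (1 - q)
        * (1 - 2 * s * η) ^ (1 / 2 : ℝ) * (1 + 2 * b * η) ^ (-(3 / 2) : ℝ))) h1.le ?_ ?_ i1]
    · have : 1 - 2 * s * (1 / (2 * s)) = 0 := by field_simp; ring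
      rw [this, Real.zero_rpow (by norm_num), Real.zero_rpow (by linarith)]
      simp
    · refine continuousOn_const.mul (((ContinuousOn.mul (by fun_prop) ?_).mul ?_).mul ?_)
      · exact continuousOn_id.rpow_const fun x _ => Or.inr (by linarith)
      · exact ContinuousOn.rpow_const (by fun_prop) fun x _ => Or.inr (by norm_num)
      · exact ContinuousOn.rpow_const (by fun_prop) fun x hx => Or.inl (by
          have := hx.1; positivity)
    · intro η hη
      have hη0 : 0 < η := hη.1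
      have p1 : 0 < 1 - 2 * s * η := by
        have := hη.2
        rw [lt_div_iff₀ (by positivity)] at this; linarith
      have p2 : 0 < 1 + 2 * b * η := by positivity
      have d0 : HasDerivAt (fun η : ℝ => Real.exp (-(s - b) * η))
          (Real.exp (-(s - b) * η) * -(s - b)) η :=
        HasDerivAt.congr_deriv ((hasDerivAt_id η).const_mul (-(s - b))).exp (by simp)
      have d1 := Real.hasDerivAt_rpow_const (x := η) (p := 1 - q) (Or.inl hη0.ne')
      have d2 := (((hasDerivAt_id η).const_mul (2 * s)).const_sub 1).rpow_const (p := (1 / 2 : ℝ))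
        (Or.inl p1.ne')
      have d3 := (((hasDerivAt_id η).const_mul (2 * b)).const_add 1).rpow_const
        (p := (-(3 / 2) : ℝ)) (Or.inl p2.ne')
      refine HasDerivAt.congr_deriv ((((d0.fun_mul d1).fun_mul d2).fun_mul d3).const_mul (c * s)) ?_
      simp only [id]
      have e1 : η ^ (1 - q) = η * η ^ (-q) := by
        rw [show 1 - q = -q + 1 by ring, Real.rpow_add_one hη0.ne']; ring
      have e2 : (1 - 2 * s * η) ^ (1 / 2 : ℝ) = (1 - 2 * s * η) * (1 - 2 * s * η) ^ (-(1 / 2) : ℝ) := by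
        rw [show (1 / 2 : ℝ) = -(1 / 2) + 1 by norm_num, Real.rpow_add_one p1.ne']
        norm_num; ring
      have e3 : (1 + 2 * b * η) ^ (-(3 / 2) : ℝ)
          = (1 + 2 * b * η) * (1 + 2 * b * η) ^ (-(5 / 2) : ℝ) := by
        rw [show (-(3 / 2) : ℝ) = -(5 / 2) + 1 by norm_num, Real.rpow_add_one p2.ne']; ring
      rw [he η hη, e1, e2, e3, show 1 - q - 1 = -q by ring,
        show (1 / 2 - 1 : ℝ) = -(1 / 2) by norm_num, show (-(3 / 2) - 1 : ℝ) = -(5 / 2) by norm_num]
      simp only [hB]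
      ring
  have := intervalIntegral.intervalIntegral_pos_of_pos_on (i2.sub i1) (fun η hη => by
    have hη0 : 0 < η := hη.1
    have p1 : 0 < 1 - 2 * s * η := by
      have := hη.2
      rw [lt_div_iff₀ (by positivity)] at this; linarith
    have p2 : 0 < 1 + 2 * b * η := by positivity
    have p3 : 0 < h η := by rw [he η hη]; positivity
    rw [← mul_sub]
    refine mul_pos p3 ?_
    have e : 3 * s - (s + b) * (1 + 2 * b * η) - B η
        = (s - b) * (1 + (3 * s + 2 * b) * η) + s * (s - b) * η * ((1 - 2 * s * η) * (1 + 2 * b * η))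
          + s * q * ((1 - 2 * s * η) * (1 + 2 * b * η)) := by
      simp only [hB]; ring
    rw [e]
    have : 0 ≤ s - b := by linarith
    positivity) h1
  rwa [intervalIntegral.integral_sub i2 i1, z, sub_zero] at this

lemma ineqB (hσ : 0 ≤ ∑ k, a k) (hq : 0 < q) (hq1 : q < 1) (h : IsMaxi q a) (hD : 0 < Dd q a)
    {i j : Fin n} (hi : 0 < a i) (hj : a j < 0) (hle : -a j ≤ a i)
    (hz : ∀ k, k ≠ i → k ≠ j → a k = 0) : Dd q a * (a i - a j) < 3 * a i * Ll q a j := by
  have hij : i ≠ j := by rintro rfl; linarith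
  have hnp : ∀ k, k ≠ i → a k ≤ 0 := by
    intro k hk
    by_cases hkj : k = j
    · rw [hkj]; exact hj.le
    · exact (hz k hk hkj).le
  have hlt : ∀ k, k ≠ i → a k < a i := fun k hk => (hnp k hk).trans_lt hi
  have h2 : ∀ k l, k ≠ i → l ≠ i → 0 < a k → 0 < a l → k = l := fun k l hk _ pk _ =>
    absurd pk (not_lt.2 (hnp k hk))
  set s := a i with hs
  set b := -a j with hb
  have hb0 : 0 < b := by linarith
  have ej : s - a j = s + b := by linarith
  rw [ej]
  rcases lt_or_ge ((s + b) ^ 2) (3 * s ^ 2) with hc | hc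
  · have hA := ineqA hσ hq hq1 h hi hlt h2 hj
    rw [← hs, ← hb] at hA
    have e : s * (1 + 2 * b * (1 / (2 * s))) = s + b := by field_simp
    have hA' : s * Dd q a ≤ (s + b) * Ll q a j := by
      rw [← e, mul_assoc]; exact mul_le_mul_of_nonneg_left hA hi.le
    have : (s + b) * (Dd q a * (s + b)) < (s + b) * (3 * s * Ll q a j) := by nlinarith
    exact lt_of_mul_lt_mul_left this (by linarith)
  · obtain ⟨i1, e⟩ := contour_rep hσ hq hq1 h hj (3 * s) (s + b) (inj_of hlt h2)
    obtain ⟨i0, -⟩ := contour_rep hσ hq hq1 h hj 1 0 (inj_of hlt h2)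
    rw [← hb] at i1 e i0
    have h1 : (0 : ℝ) < 1 / (2 * s) := by positivity
    have pos : 0 < ∫ η in Ioi (0 : ℝ),
        ω a q η * ((3 * s - (s + b) * (1 + 2 * b * η)) / (1 + 2 * b * η) ^ 2) := by
      rw [← Ioc_union_Ioi_eq_Ioi h1.le, setIntegral_union (Ioc_disjoint_Ioi le_rfl)
        measurableSet_Ioi (i1.mono_set Ioc_subset_Ioi_self) (i1.mono_set (Ioi_subset_Ioi h1.le))]
      refine add_pos_of_pos_of_nonneg ?_ (setIntegral_nonneg_ae measurableSet_Ioi ?_)
      · rw [← intervalIntegral.integral_of_le h1.le]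
        have := left_integral_pos hq hq1 hb0 hle (cos_q_pos hq hq1)
          ((intervalIntegrable_iff_integrableOn_Ioc_of_le h1.le).2 (i0.mono_set Ioc_subset_Ioi_self))
          (fun η hη => by
            have p2 : 0 < 1 + 2 * b * η := by have := hη.1; positivity
            have e1 : ∑ k, a k = s - b := by
              rw [← Finset.sum_subset (Finset.subset_univ {i, j}), Finset.sum_pair hij]
              · linarith
              · intro k _ hk
                simp only [Finset.mem_insert, Finset.mem_singleton, not_or] at hk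
                exact hz k hk.1 hk.2
            have e2 : ∏ k, (1 - 2 * a k * η) ^ (-(1 / 2) : ℝ)
                = (1 - 2 * s * η) ^ (-(1 / 2) : ℝ) * (1 + 2 * b * η) ^ (-(1 / 2) : ℝ) := by
              rw [← Finset.prod_subset (Finset.subset_univ {i, j}), Finset.prod_pair hij]
              · congr 2; rw [hb]; ring
              · intro k _ hk
                simp only [Finset.mem_insert, Finset.mem_singleton, not_or] at hk
                simp [hz k hk.1 hk.2]
            have e3 : (1 + 2 * b * η) ^ (-(5 / 2) : ℝ)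
                = (1 + 2 * b * η) ^ (-(1 / 2) : ℝ) / (1 + 2 * b * η) ^ 2 := by
              rw [← Real.rpow_sub_natCast p2.ne']; norm_num
            rw [ω_left hi hlt hη.1 hη.2, e1, e2, e3]
            ring)
        refine this.trans_eq ?_
        congr 1; ext η; ring
      · filter_upwards [ae_nonsing a] with η hsg hη
        have hη' : 1 / (2 * s) < η := hη
        refine mul_nonneg_of_nonpos_of_nonpos (ω_nonpos hq hq1 hi h2 hη' hsg)
          (div_nonpos_of_nonpos_of_nonneg ?_ (sq_nonneg _))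
        rw [div_lt_iff₀ (by positivity)] at hη'
        have : s * (3 * s) ≤ s * ((s + b) * (1 + 2 * b * η)) := by
          have : 0 ≤ (s + b) * b * (η * (2 * s) - 1) :=
            mul_nonneg (by positivity) (by linarith)
          nlinarith
        have := le_of_mul_le_mul_left this hi
        linarith
    have : 0 < Iq q * (3 * s * Ll q a j - (s + b) * Dd q a) := by rw [e]; positivity
    have := pos_of_mul_pos_of_pos_left' this (Iq_pos hq (by linarith))
    linarith

lemma IsMaxi.neg (h : IsMaxi q a) : IsMaxi q (-a) := by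
  have e : F q (-a) = F q a := by
    have := F_smul (q := q) (-1) a
    simpa using this
  exact ⟨by simpa using h.norm, fun b => e ▸ h.le b⟩

lemma single_of_nonneg (hq : 0 < q) (h : IsMaxi q a) (hF : 0 < F q a) (hσ : 0 ≤ ∑ k, a k) :
    ∀ i j, a i ≠ 0 → a j ≠ 0 → i = j := by
  refine single_support (L := Ll q a) (lam := lam q a) (D := Dd q a) hq
    (by unfold lam; positivity) hσ (h.hom hq) (h.sec hq) (Ll_symm hq)
    (fun ha => h.skew_eq hq ▸ skew_nonneg hq.le ha) (fun hq1 => h.conv hq1)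
    (fun hq1 hD i hi hlt h2 j hj => ?_) (fun hq1 hD i j hi hj hle hz =>
      ineqB hσ hq hq1 h hD hi hj hle hz)
  have := ineqA hσ hq hq1 h hi hlt h2 hj
  have h0 : 0 < -a j := by linarith
  exact pos_of_mul_pos_of_pos_left' (hD.trans_le this) (by positivity)

lemma single (hq : 0 < q) (h : IsMaxi q a) (hF : 0 < F q a) :
    ∀ i j, a i ≠ 0 → a j ≠ 0 → i = j := by
  rcases le_total 0 (∑ k, a k) with hσ | hσ
  · exact single_of_nonneg hq h hF hσ
  · have e : F q (-a) = F q a := by
      have := F_smul (q := q) (-1) a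
      simpa using this
    intro i j hi hj
    exact single_of_nonneg hq h.neg (e ▸ hF) (by simpa using hσ) i j (by simpa using hi)
      (by simpa using hj)

lemma F_single (hq : 0 < q) (i : Fin n) :
    F q (Pi.single i 1) = ∫ y, |y ^ 2 - 1| ^ (q + 2) ∂γ := by
  simp only [F, S_single]
  have mp := measurePreserving_eval (fun _ : Fin n => γ) i
  have pg : PG fun y : ℝ => |y ^ 2 - 1| ^ (q + 2) :=
    (PG.abs_rpow (by linarith)).comp ((PG.id'.pow 2).sub (PG.const 1))
  rw [← mp.map_eq, integral_map mp.measurable.aemeasurable pg.1.aestronglyMeasurable]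

theorem F_le (hq : 0 < q) (b : Fin n → ℝ) (hb : ∑ k, b k ^ 2 = 1) :
    F q b ≤ ∫ y, |y ^ 2 - 1| ^ (q + 2) ∂γ := by
  have hn : 0 < n := by
    rcases Nat.eq_zero_or_pos n with rfl | h
    · simp at hb
    · exact h
  obtain ⟨a, h⟩ := exists_isMaxi hn hq
  have h1 := h.le b
  rw [hb, Real.one_rpow, mul_one] at h1
  refine h1.trans ?_
  rcases le_or_gt (F q a) 0 with hF | hF
  · exact hF.trans (integral_nonneg fun y => by simp only [Pi.zero_apply]; positivity)
  have hs := single hq h hF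
  obtain ⟨i, hi⟩ : ∃ i, a i ≠ 0 := by
    by_contra hc
    push Not at hc
    have := h.norm
    simp [hc] at this
  have hz : ∀ k, k ≠ i → a k = 0 := fun k hk => by
    by_contra hc; exact hk (hs k i hc hi)
  have e : a = a i • Pi.single i 1 := by
    funext k
    by_cases hk : k = i
    · subst hk; simp
    · simp [hk, hz k hk]
  have e2 : |a i| = 1 := by
    have := h.norm
    rw [Finset.sum_eq_single i (fun k _ hk => by simp [hz k hk]) (by simp)] at this
    rwa [← sq_abs, pow_eq_one_iff_of_nonneg (abs_nonneg _) two_ne_zero] at this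
  rw [e, F_smul, e2, Real.one_rpow, one_mul, F_single hq]

end Pool.Agent.MP_c22ba5_pr.H86
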