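import Pool.Agent.MP_c22ba5_pr.H86.Gauss

/-! Characteristic functions and the Fourier representation of `|y|^q`. -/

open MeasureTheory ProbabilityTheory Set Filter Topology Complex

namespace Pool.Agent.MP_c22ba5_pr.H86

lemma char_one {z : ℂ} (hz : 0 ≤ z.re) :
    ∫ x : ℝ, cexp (-z * (x : ℂ) ^ 2) ∂γ = cexp (-(1 / 2) * log (1 + 2 * z)) := by
  rw [integral_gaussianReal_eq_integral_smul one_ne_zero]
  have hb : 0 < (1 / 2 + z).re := by simp; linarith
  have hw : 0 < (1 + 2 * z).re := by simp; linarith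
  have hw0 : (1 + 2 * z) ≠ 0 := by intro h; rw [h] at hw; simp at hw
  have h1 : ∀ x : ℝ, gaussianPDFReal 0 1 x • cexp (-z * (x : ℂ) ^ 2)
      = (((√(2 * Real.pi))⁻¹ : ℝ) : ℂ) * cexp (-(1 / 2 + z) * (x : ℂ) ^ 2) := by
    intro x
    simp only [gaussianPDFReal, NNReal.coe_one, mul_one, sub_zero, real_smul, ofReal_mul, ofReal_exp]
    rw [mul_assoc, ← Complex.exp_add]
    congr 2; push_cast; ring
  simp only [h1]
  rw [integral_const_mul, integral_gaussian_complex hb]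
  have h2 : (Real.pi : ℂ) / (1 / 2 + z) = ((2 * Real.pi : ℝ) : ℂ) * (1 + 2 * z)⁻¹ := by
    have : (1 / 2 + z) ≠ 0 := by intro h; rw [h] at hb; simp at hb
    push_cast; field_simp
  have hpi : 0 < 2 * Real.pi := by positivity
  have harg : (1 + 2 * z).arg ≠ Real.pi := by
    rw [Ne, Complex.arg_eq_pi_iff]; exact fun h => by linarith [h.1]
  rw [h2, cpow_def_of_ne_zero (mul_ne_zero (by exact_mod_cast hpi.ne') (inv_ne_zero hw0)),
    log_ofReal_mul hpi (inv_ne_zero hw0), Complex.log_inv _ harg, add_mul, Complex.exp_add,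
    ← mul_assoc]
  have h3 : cexp (((Real.log (2 * Real.pi) : ℝ) : ℂ) * (1 / 2)) = ((√(2 * Real.pi) : ℝ) : ℂ) := by
    rw [Real.sqrt_eq_rpow, Real.rpow_def_of_pos hpi]; push_cast; rfl
  rw [h3, ← ofReal_mul, inv_mul_cancel₀ (Real.sqrt_pos.2 hpi).ne']
  simp only [ofReal_one, one_mul]
  congr 1; ring

/-- `exp (-i ξ y)` -/
noncomputable def ee (ξ y : ℝ) : ℂ := cexp (-(I * ξ * y))

lemma norm_ee (ξ y : ℝ) : ‖ee ξ y‖ = 1 := by
  rw [ee, norm_exp]; simp

lemma re_ee (ξ y : ℝ) : (ee ξ y).re = Real.cos (ξ * y) := by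
  rw [ee, exp_re]; simp

lemma PG_ee (ξ : ℝ) : PG (ee ξ) :=
  PG.of_bdd (by unfold ee; fun_prop) 1 fun y => (norm_ee ξ y).le

lemma PG_ee' (ξ : ℝ) : PG (fun y => -(I * ξ) * ee ξ y) :=
  PG.of_bdd (by unfold ee; fun_prop) ‖-(I * ξ)‖ fun y => by rw [norm_mul, norm_ee, mul_one]

lemma hasDerivAt_ee (ξ y : ℝ) : HasDerivAt (ee ξ) (-(I * ξ) * ee ξ y) y := by
  have h : HasDerivAt (fun y : ℝ => -(I * ξ * (y : ℂ))) (-(I * ξ)) y := by
    exact HasDerivAt.congr_deriv ((Complex.ofRealCLM.hasDerivAt (x := y)).const_mul (I * ξ)).neg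
      (by simp)
  exact HasDerivAt.congr_deriv h.cexp (by rw [ee]; ring)

variable {n : ℕ}

/-- the characteristic function, continued to complex arguments -/
noncomputable def Φ (a : Fin n → ℝ) (ξ : ℂ) : ℂ :=
  cexp (I * (∑ k, a k : ℝ) * ξ - (1 / 2) * ∑ k, log (1 + 2 * I * a k * ξ))

lemma char_S (a : Fin n → ℝ) (ξ : ℝ) : ∫ x, ee ξ (S a x) ∂μ n = Φ a ξ := by
  have h1 : ∀ x : Fin n → ℝ, ee ξ (S a x)
      = ∏ k, (cexp (I * a k * ξ) * cexp (-(I * a k * ξ) * ((x k : ℝ) : ℂ) ^ 2)) := by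
    intro x
    simp only [← Complex.exp_add, ← Complex.exp_sum, ee, S]
    congr 1
    push_cast
    rw [Finset.mul_sum, ← Finset.sum_neg_distrib]
    exact Finset.sum_congr rfl fun k _ => by ring
  simp only [h1]
  rw [integral_fintype_prod_eq_prod
    (fun k (t : ℝ) => cexp (I * a k * ξ) * cexp (-(I * a k * ξ) * (t : ℂ) ^ 2))]
  simp only [integral_const_mul]
  have h2 : ∀ k, ∫ t : ℝ, cexp (-(I * a k * ξ) * (t : ℂ) ^ 2) ∂γ
      = cexp (-(1 / 2) * log (1 + 2 * (I * a k * ξ))) := fun k => char_one (by simp)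
  simp only [h2, ← Complex.exp_add, ← Complex.exp_sum, Φ]
  congr 1
  push_cast
  rw [Finset.mul_sum, Finset.sum_mul, Finset.mul_sum, ← Finset.sum_sub_distrib]
  exact Finset.sum_congr rfl fun k _ => by ring_nf

lemma u_ne (t ξ : ℝ) : (1 + 2 * I * t * ξ : ℂ) ≠ 0 := by
  intro h
  have := congrArg Complex.re h
  simp at this

lemma char_S2 (a : Fin n → ℝ) (j : Fin n) (ξ : ℝ) :
    ∫ x, (x j ^ 2) • ee ξ (S a x) ∂μ n = Φ a ξ / (1 + 2 * I * a j * ξ) := by
  have h := ibp_main a j 0 (m := fun _ => 1) (PG.const _) (fun _ _ => rfl) (PG_ee ξ) (PG_ee' ξ)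
    (hasDerivAt_ee ξ)
  simp only [mul_zero, zero_add, mul_one, pow_zero, Nat.cast_zero, one_smul, char_S,
    ← mul_smul_comm, integral_const_mul] at h
  rw [eq_div_iff (u_ne _ _)]
  rw [real_smul] at h
  push_cast at h
  linear_combination h

lemma char_S4 (a : Fin n → ℝ) (j : Fin n) (ξ : ℝ) :
    ∫ x, (x j ^ 4) • ee ξ (S a x) ∂μ n = 3 * Φ a ξ / (1 + 2 * I * a j * ξ) ^ 2 := by
  have h := ibp_main a j 1 (m := fun _ => 1) (PG.const _) (fun _ _ => rfl) (PG_ee ξ) (PG_ee' ξ)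
    (hasDerivAt_ee ξ)
  simp only [mul_one, Nat.cast_one, char_S2, ← mul_smul_comm, integral_const_mul] at h
  rw [show 2 + 2 = 4 from rfl, real_smul, real_smul] at h
  push_cast at h
  have hu := u_ne (a j) ξ
  rw [eq_div_iff (pow_ne_zero 2 hu)]
  have h' : (∫ x, (x j ^ 4) • ee ξ (S a x) ∂μ n) * (1 + 2 * I * a j * ξ)
      = 3 * (Φ a ξ / (1 + 2 * I * a j * ξ)) := by linear_combination h
  rw [sq, ← mul_assoc, h']
  field_simp

lemma re_integral {w : (Fin n → ℝ) → ℝ} (hw : PG w) (a : Fin n → ℝ) (ξ : ℝ) :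
    ∫ x, w x * Real.cos (ξ * S a x) ∂μ n = (∫ x, w x • ee ξ (S a x) ∂μ n).re := by
  have := Complex.reCLM.integral_comp_comm (hw.smul ((PG_ee ξ).comp (PG_S a))).integrable
  simp only [reCLM_apply, real_smul, re_ofReal_mul, re_ee] at this
  simpa only [real_smul] using this

/-- combination of the weights `1, x^2, x^4` -/
lemma cos_comb (a : Fin n → ℝ) (j : Fin n) (c0 c1 c2 ξ : ℝ) :
    ∫ x, (c0 + c1 * x j ^ 2 + c2 * x j ^ 4) * Real.cos (ξ * S a x) ∂μ n
      = (Φ a ξ * (c0 + c1 / (1 + 2 * I * a j * ξ) + 3 * c2 / (1 + 2 * I * a j * ξ) ^ 2)).re := by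
  have pe := (PG_ee ξ).comp (PG_S a)
  have p2 := ((PG.apply j).pow 2).smul pe
  have p4 := ((PG.apply j).pow 4).smul pe
  rw [re_integral (((PG.const c0).add (((PG.apply j).pow 2).const_mul c1)).add
    (((PG.apply j).pow 4).const_mul c2))]
  simp only [add_smul, mul_smul]
  rw [integral_add (((PG.const c0).smul pe).add ((PG.const c1).smul p2)).integrable
    ((PG.const c2).smul p4).integrable, integral_add ((PG.const c0).smul pe).integrable
    ((PG.const c1).smul p2).integrable, integral_smul, integral_smul, integral_smul, char_S,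
    char_S2, char_S4]
  congr 1
  simp only [real_smul]; ring

section rep
variable {q : ℝ}

lemma integrableOn_kernel (h0 : 0 < q) (h2 : q < 2) :
    IntegrableOn (fun ξ : ℝ => (1 - Real.cos ξ) * ξ ^ (-q - 1)) (Ioi 0) := by
  have hm : ContinuousOn (fun ξ : ℝ => (1 - Real.cos ξ) * ξ ^ (-q - 1)) (Ioi 0) :=
    ContinuousOn.mul (by fun_prop)
      (continuousOn_id.rpow_const fun x hx => Or.inl (ne_of_gt hx))
  rw [← Ioc_union_Ioi_eq_Ioi zero_le_one]
  refine IntegrableOn.union ?_ ?_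
  · have h1 : IntegrableOn (fun ξ : ℝ => ξ ^ (1 - q)) (Ioc 0 1) :=
      (intervalIntegrable_iff_integrableOn_Ioc_of_le zero_le_one).1
        (intervalIntegral.intervalIntegrable_rpow' (by linarith))
    refine h1.mono' ((hm.mono Ioc_subset_Ioi_self).aestronglyMeasurable measurableSet_Ioc) ?_
    refine (ae_restrict_iff' measurableSet_Ioc).2 (ae_of_all _ fun ξ hξ => ?_)
    have hξ0 : 0 < ξ := hξ.1
    have c1 := Real.one_sub_sq_div_two_le_cos (x := ξ)
    have c2 := Real.cos_le_one ξ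
    rw [Real.norm_of_nonneg (mul_nonneg (by linarith) (by positivity))]
    have e : ξ ^ (1 - q) = ξ ^ 2 * ξ ^ (-q - 1) := by
      rw [← Real.rpow_natCast, ← Real.rpow_add hξ0]; congr 1; push_cast; ring
    rw [e]
    gcongr
    nlinarith
  · have h1 : IntegrableOn (fun ξ : ℝ => 2 * ξ ^ (-q - 1)) (Ioi 1) :=
      (integrableOn_Ioi_rpow_of_lt (by linarith) one_pos).const_mul 2
    refine h1.mono' ((hm.mono (Ioi_subset_Ioi zero_le_one)).aestronglyMeasurable
      measurableSet_Ioi) ?_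
    refine (ae_restrict_iff' measurableSet_Ioi).2 (ae_of_all _ fun ξ hξ => ?_)
    have hξ0 : 0 < ξ := lt_trans one_pos hξ
    have c1 := Real.neg_one_le_cos ξ
    have c2 := Real.cos_le_one ξ
    rw [Real.norm_of_nonneg (mul_nonneg (by linarith) (by positivity))]
    gcongr
    linarith

/-- the normalising constant -/
noncomputable def Iq (q : ℝ) : ℝ := ∫ ξ in Ioi (0 : ℝ), (1 - Real.cos ξ) * ξ ^ (-q - 1)

lemma Iq_pos (h0 : 0 < q) (h2 : q < 2) : 0 < Iq q := by
  rw [Iq, setIntegral_pos_iff_support_of_nonneg_ae _ (integrableOn_kernel h0 h2)]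
  · refine lt_of_lt_of_le (b := volume (Ioo (1 : ℝ) 2)) (by simp) (measure_mono fun ξ hξ => ?_)
    have hξ0 : 0 < ξ := lt_trans one_pos hξ.1
    refine ⟨mul_ne_zero ?_ (by positivity), hξ0⟩
    have : Real.cos ξ < Real.cos 0 :=
      Real.cos_lt_cos_of_nonneg_of_le_pi le_rfl (by linarith [Real.pi_gt_three, hξ.2]) hξ0
    rw [Real.cos_zero] at this
    linarith
  · refine (ae_restrict_iff' measurableSet_Ioi).2 (ae_of_all _ fun ξ hξ => ?_)
    have hξ0 : 0 < ξ := hξ
    exact mul_nonneg (by linarith [Real.cos_le_one ξ]) (by positivity)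

lemma kernel_scale (h0 : 0 < q) (h2 : q < 2) (y : ℝ) :
    IntegrableOn (fun ξ : ℝ => (1 - Real.cos (ξ * y)) * ξ ^ (-q - 1)) (Ioi 0) ∧
      ∫ ξ in Ioi (0 : ℝ), (1 - Real.cos (ξ * y)) * ξ ^ (-q - 1) = |y| ^ q * Iq q := by
  rcases eq_or_ne y 0 with rfl | hy
  · simp [Real.zero_rpow h0.ne']
  have hc : 0 < |y| := abs_pos.2 hy
  have e : ∀ ξ ∈ Ioi (0 : ℝ), (1 - Real.cos (ξ * y)) * ξ ^ (-q - 1)
      = |y| ^ (q + 1) * ((1 - Real.cos (|y| * ξ)) * (|y| * ξ) ^ (-q - 1)) := by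
    intro ξ hξ
    have hξ0 : 0 < ξ := hξ
    have c : Real.cos (ξ * y) = Real.cos (|y| * ξ) := by
      rw [← Real.cos_abs (ξ * y), abs_mul, abs_of_pos hξ0, mul_comm]
    have d : |y| ^ (q + 1) * |y| ^ (-q - 1) = 1 := by
      rw [← Real.rpow_add hc]; simp
    rw [c, Real.mul_rpow hc.le hξ0.le]
    linear_combination -(1 - Real.cos (|y| * ξ)) * ξ ^ (-q - 1) * d
  constructor
  · refine IntegrableOn.congr_fun ?_ (fun ξ hξ => (e ξ hξ).symm) measurableSet_Ioi
    refine Integrable.const_mul ?_ _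
    have := (integrableOn_Ioi_comp_mul_left_iff
      (fun ξ : ℝ => (1 - Real.cos ξ) * ξ ^ (-q - 1)) 0 hc).2
      (by simpa using integrableOn_kernel h0 h2)
    exact this
  · rw [setIntegral_congr_fun measurableSet_Ioi e, integral_const_mul,
      integral_comp_mul_left_Ioi (fun ξ : ℝ => (1 - Real.cos ξ) * ξ ^ (-q - 1)) 0 hc]
    rw [mul_zero, smul_eq_mul, ← Iq, ← mul_assoc, Real.rpow_add_one hc.ne']
    congr 1; field_simp

lemma fourier_rep (h0 : 0 < q) (h2 : q < 2) (a : Fin n → ℝ) {w : (Fin n → ℝ) → ℝ} (hw : PG w)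
    (hw0 : ∫ x, w x ∂μ n = 0) :
    IntegrableOn (fun ξ : ℝ => -(∫ x, w x * Real.cos (ξ * S a x) ∂μ n) * ξ ^ (-q - 1)) (Ioi 0) ∧
      Iq q * ∫ x, w x * |S a x| ^ q ∂μ n
        = ∫ ξ in Ioi (0 : ℝ), -(∫ x, w x * Real.cos (ξ * S a x) ∂μ n) * ξ ^ (-q - 1) := by
  have p := (PG.abs_rpow h0.le).comp (PG_S a)
  set f : (Fin n → ℝ) → ℝ → ℝ := fun x ξ => w x * ((1 - Real.cos (ξ * S a x)) * ξ ^ (-q - 1))
    with hf
  have hm : AEStronglyMeasurable (Function.uncurry f) ((μ n).prod (volume.restrict (Ioi 0))) := by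
    have c1 := hw.1
    have c2 := (PG_S a).1
    refine Measurable.aestronglyMeasurable ?_
    have m1 := c1.measurable
    have m2 := c2.measurable
    unfold Function.uncurry
    simp only [hf]
    fun_prop
  have hi : Integrable (Function.uncurry f) ((μ n).prod (volume.restrict (Ioi 0))) := by
    rw [integrable_prod_iff hm]
    refine ⟨ae_of_all _ fun x => ((kernel_scale h0 h2 (S a x)).1).const_mul (w x), ?_⟩
    have pw : PG fun x => |w x| ^ (1 : ℝ) * (|S a x| ^ q * Iq q) :=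
      ((PG.abs_rpow zero_le_one).comp hw).mul (p.mul (PG.const _))
    refine pw.integrable.congr (ae_of_all _ fun x => ?_)
    simp only [Function.uncurry, hf, Real.rpow_one]
    rw [← (kernel_scale h0 h2 (S a x)).2, ← integral_const_mul]
    refine setIntegral_congr_fun measurableSet_Ioi fun ξ hξ => ?_
    have hξ0 : 0 < ξ := hξ
    rw [norm_mul, Real.norm_eq_abs, Real.norm_of_nonneg
      (mul_nonneg (by linarith [Real.cos_le_one (ξ * S a x)]) (by positivity))]
  have e : ∀ ξ, ∫ x, f x ξ ∂μ n = -(∫ x, w x * Real.cos (ξ * S a x) ∂μ n) * ξ ^ (-q - 1) := by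
    intro ξ
    have pc : PG fun x => w x * Real.cos (ξ * S a x) := hw.mul (PG.of_bdd
      (by have := (PG_S a).1; fun_prop) 1 fun x => Real.abs_cos_le_one _)
    have : ∀ x, f x ξ = (w x - w x * Real.cos (ξ * S a x)) * ξ ^ (-q - 1) := fun x => by
      simp only [hf]; ring
    simp only [this]
    rw [integral_mul_const, integral_sub hw.integrable pc.integrable, hw0, zero_sub]
  constructor
  · have := hi.integral_prod_right
    simp only [Function.uncurry, e] at this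
    exact this
  · have := integral_integral_swap hi
    simp only [e] at this
    rw [← this, ← integral_const_mul]
    congr 1; ext x
    simp only [hf]
    rw [integral_const_mul, (kernel_scale h0 h2 (S a x)).2]; ring

end rep

end Pool.Agent.MP_c22ba5_pr.H86
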