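import Mathlib

/-! Polynomial growth, product Gaussian measure, Gaussian integration by parts. -/

open MeasureTheory ProbabilityTheory Set Filter Topology

namespace Pool.Agent.MP_c22ba5_pr.H86

/-- continuous functions of polynomial growth -/
def PG {X E : Type*} [SeminormedAddCommGroup X] [SeminormedAddCommGroup E] (H : X → E) : Prop :=
  Continuous H ∧ ∃ (C : ℝ) (N : ℕ), 0 ≤ C ∧ ∀ x, ‖H x‖ ≤ C * (1 + ‖x‖) ^ N

section PG
variable {X E : Type*} [SeminormedAddCommGroup X] [SeminormedAddCommGroup E]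

lemma one_le_base (x : X) : (1 : ℝ) ≤ 1 + ‖x‖ := by linarith [norm_nonneg x]

lemma PG.const (c : E) : PG (fun _ : X => c) :=
  ⟨continuous_const, ‖c‖, 0, norm_nonneg _, fun x => by simp⟩

lemma PG.of_bdd {H : X → E} (h : Continuous H) (C : ℝ) (hC : ∀ x, ‖H x‖ ≤ C) : PG H :=
  ⟨h, max C 0, 0, le_max_right _ _, fun x => by simpa using Or.inl (hC x)⟩

lemma PG.add {F G : X → E} (hF : PG F) (hG : PG G) : PG (fun x => F x + G x) := by
  obtain ⟨cF, C, N, hC, h⟩ := hF
  obtain ⟨cG, D, M, hD, h'⟩ := hG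
  refine ⟨cF.add cG, C + D, max N M, by positivity, fun x => ?_⟩
  have h1 : (1 + ‖x‖) ^ N ≤ (1 + ‖x‖) ^ max N M := pow_le_pow_right₀ (one_le_base x) (le_max_left _ _)
  have h2 : (1 + ‖x‖) ^ M ≤ (1 + ‖x‖) ^ max N M := pow_le_pow_right₀ (one_le_base x) (le_max_right _ _)
  calc ‖F x + G x‖ ≤ ‖F x‖ + ‖G x‖ := norm_add_le _ _
    _ ≤ C * (1 + ‖x‖) ^ N + D * (1 + ‖x‖) ^ M := add_le_add (h x) (h' x)
    _ ≤ C * (1 + ‖x‖) ^ max N M + D * (1 + ‖x‖) ^ max N M := by gcongr
    _ = _ := by ring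

lemma PG.neg {F : X → E} (hF : PG F) : PG (fun x => - F x) := by
  obtain ⟨cF, C, N, hC, h⟩ := hF
  exact ⟨cF.neg, C, N, hC, fun x => by simpa using h x⟩

lemma PG.sub {F G : X → E} (hF : PG F) (hG : PG G) : PG (fun x => F x - G x) := by
  simpa [sub_eq_add_neg] using hF.add hG.neg

lemma PG.smul [NormedSpace ℝ E] {F : X → ℝ} {G : X → E} (hF : PG F) (hG : PG G) :
    PG (fun x => F x • G x) := by
  obtain ⟨cF, C, N, hC, h⟩ := hF
  obtain ⟨cG, D, M, hD, h'⟩ := hG
  refine ⟨cF.smul cG, C * D, N + M, by positivity, fun x => ?_⟩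
  rw [norm_smul, pow_add]
  calc ‖F x‖ * ‖G x‖ ≤ (C * (1 + ‖x‖) ^ N) * (D * (1 + ‖x‖) ^ M) :=
        mul_le_mul (h x) (h' x) (norm_nonneg _) (by positivity)
    _ = _ := by ring

lemma PG.mul {F G : X → ℝ} (hF : PG F) (hG : PG G) : PG (fun x => F x * G x) := hF.smul hG

lemma PG.const_mul {G : X → ℝ} (c : ℝ) (hG : PG G) : PG (fun x => c * G x) := (PG.const c).mul hG

lemma PG.pow {F : X → ℝ} (hF : PG F) (k : ℕ) : PG (fun x => F x ^ k) := by
  induction k with
  | zero => simpa using PG.const (1 : ℝ)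
  | succ k ih => simpa [pow_succ] using ih.mul hF

lemma PG.sum {ι : Type*} (s : Finset ι) {F : ι → X → E} (h : ∀ i ∈ s, PG (F i)) :
    PG (fun x => ∑ i ∈ s, F i x) := by
  classical
  induction s using Finset.induction_on with
  | empty => simpa using PG.const (0 : E)
  | insert a s ha ih =>
    simp only [Finset.sum_insert ha]
    exact (h a (Finset.mem_insert_self _ _)).add (ih fun i hi => h i (Finset.mem_insert_of_mem hi))

lemma PG.comp {Y : Type*} [SeminormedAddCommGroup Y] {f : Y → E} {g : X → Y} (hf : PG f)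
    (hg : PG g) : PG (fun x => f (g x)) := by
  obtain ⟨cF, C, N, hC, h⟩ := hf
  obtain ⟨cG, D, M, hD, h'⟩ := hg
  refine ⟨cF.comp cG, C * (1 + D) ^ N, M * N, by positivity, fun x => ?_⟩
  have h1 : (1 : ℝ) ≤ (1 + ‖x‖) ^ M := one_le_pow₀ (one_le_base x)
  have h2 : 1 + ‖g x‖ ≤ (1 + D) * (1 + ‖x‖) ^ M := by nlinarith [h' x]
  calc ‖f (g x)‖ ≤ C * (1 + ‖g x‖) ^ N := h _
    _ ≤ C * ((1 + D) * (1 + ‖x‖) ^ M) ^ N := by gcongr
    _ = _ := by rw [mul_pow, ← pow_mul]; ring

lemma PG.id' : PG (fun x : X => x) :=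
  ⟨continuous_id, 1, 1, zero_le_one, fun x => by simp⟩

lemma PG.apply {ι : Type*} [Fintype ι] (i : ι) : PG (fun x : ι → ℝ => x i) :=
  ⟨continuous_apply i, 1, 1, zero_le_one, fun x => by
    have := norm_le_pi_norm x i
    simp only [pow_one, one_mul]; linarith⟩

lemma PG.abs_rpow {r : ℝ} (hr : 0 ≤ r) : PG (fun y : ℝ => |y| ^ r) := by
  refine ⟨continuous_abs.rpow_const fun _ => Or.inr hr, 1, ⌈r⌉₊, zero_le_one, fun y => ?_⟩
  rw [Real.norm_of_nonneg (by positivity), one_mul, Real.norm_eq_abs, ← Real.rpow_natCast]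
  calc |y| ^ r ≤ (1 + |y|) ^ r := by gcongr; linarith [abs_nonneg y]
    _ ≤ _ := Real.rpow_le_rpow_of_exponent_le (by linarith [abs_nonneg y]) (Nat.le_ceil r)

end PG

/-- the standard Gaussian on the line -/
noncomputable abbrev γ : Measure ℝ := gaussianReal 0 1

/-- the standard Gaussian on `ℝ^n` -/
noncomputable abbrev μ (n : ℕ) : Measure (Fin n → ℝ) := Measure.pi fun _ => γ

variable {E : Type*} [NormedAddCommGroup E]

lemma integrable_of_PG {X : Type*} [NormedAddCommGroup X] [MeasurableSpace X]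
    [OpensMeasurableSpace X] [SecondCountableTopology X] {ν : Measure X} [IsFiniteMeasure ν]
    (hν : ∀ N : ℕ, MemLp (fun x : X => x) N ν) {H : X → E} (h : PG H) : Integrable H ν := by
  obtain ⟨cH, C, N, hC, hb⟩ := h
  have h0 : MemLp (fun x : X => ‖x‖) N ν := (hν N).norm
  have h1 : MemLp (fun x : X => 1 + ‖x‖) N ν := MemLp.add (memLp_const (1 : ℝ)) h0
  have h2 : Integrable (fun x : X => ‖(1 : ℝ) + ‖x‖‖ ^ N) ν :=
    MemLp.integrable_norm_pow' (f := fun x : X => 1 + ‖x‖) h1
  refine (h2.const_mul C).mono' cH.aestronglyMeasurable (ae_of_all _ fun x => ?_)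
  rw [Real.norm_of_nonneg (by positivity)]
  exact hb x

lemma PG.integrable_γ {H : ℝ → E} (h : PG H) : Integrable H γ :=
  integrable_of_PG (fun N => memLp_id_gaussianReal' N (by simp)) h

lemma PG.integrable {n : ℕ} {H : (Fin n → ℝ) → E} (h : PG H) : Integrable H (μ n) := by
  refine integrable_of_PG (fun N => ?_) h
  rw [memLp_pi_iff]
  intro i
  exact (memLp_id_gaussianReal' (μ := 0) (v := 1) N (by simp)).comp_measurePreserving
    (measurePreserving_eval (fun _ : Fin n => γ) i)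

variable [NormedSpace ℝ E]

lemma hasDerivAt_pdf (x : ℝ) :
    HasDerivAt (gaussianPDFReal 0 1) (-x * gaussianPDFReal 0 1 x) x := by
  have h : HasDerivAt (fun x : ℝ => (√(2 * Real.pi * ((1 : NNReal) : ℝ)))⁻¹ *
      Real.exp (-(x - 0) ^ 2 / (2 * ((1 : NNReal) : ℝ))))
      ((√(2 * Real.pi * ((1 : NNReal) : ℝ)))⁻¹ * (Real.exp (-(x - 0) ^ 2 / (2 * ((1 : NNReal) : ℝ))) *
        (-(2 * (x - 0)) / (2 * ((1 : NNReal) : ℝ))))) x := by
    refine HasDerivAt.const_mul _ (HasDerivAt.exp (HasDerivAt.div_const (HasDerivAt.neg ?_) _))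
    exact HasDerivAt.congr_deriv (((hasDerivAt_id x).sub_const 0).fun_pow 2) (by simp)
  refine HasDerivAt.congr_deriv h ?_
  simp only [gaussianPDFReal, NNReal.coe_one]
  ring

lemma integrable_γ_iff {f : ℝ → E} :
    Integrable f γ ↔ Integrable (fun x => gaussianPDFReal 0 1 x • f x) := by
  rw [γ, gaussianReal_of_var_ne_zero _ one_ne_zero,
    integrable_withDensity_iff_integrable_smul' (measurable_gaussianPDF _ _)
      (ae_of_all _ fun _ => gaussianPDF_lt_top)]
  simp

/-- one-dimensional Gaussian integration by parts -/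
lemma ibp_one {f f' : ℝ → E} (hf : ∀ x, HasDerivAt f (f' x) x) (h0 : Integrable f γ)
    (h1 : Integrable f' γ) (h2 : Integrable (fun x => x • f x) γ) :
    ∫ x, x • f x ∂γ = ∫ x, f' x ∂γ := by
  rw [integral_gaussianReal_eq_integral_smul one_ne_zero,
    integral_gaussianReal_eq_integral_smul one_ne_zero]
  rw [integrable_γ_iff] at h0 h1 h2
  have := integral_bilinear_hasDerivAt_right_eq_neg_left_of_integrable
    (L := ContinuousLinearMap.lsmul ℝ ℝ (E := E)) (u := gaussianPDFReal 0 1) (v := f)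
    (u' := fun x => -x * gaussianPDFReal 0 1 x) (v' := f') (fun x _ => hasDerivAt_pdf x)
    (fun x _ => hf x) (by simpa using h1)
    (by
      refine h2.neg.congr (ae_of_all _ fun x => ?_)
      simp [smul_smul, mul_comm]) (by simpa using h0)
  simp only [ContinuousLinearMap.lsmul_apply] at this
  rw [this, ← integral_neg]
  congr 1; ext x
  simp [smul_smul, mul_comm]

/-- Gaussian integration by parts in the coordinate `i` -/
lemma ibp_coord {n : ℕ} (i : Fin n) {H H' : (Fin n → ℝ) → E} (hH : PG H) (hH' : PG H')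
    (hd : ∀ x t, HasDerivAt (fun s => H (Function.update x i s)) (H' (Function.update x i t)) t) :
    ∫ x, x i • H x ∂μ n = ∫ x, H' x ∂μ n := by
  obtain ⟨m, rfl⟩ : ∃ m, n = m + 1 := ⟨n - 1, by have := i.pos; omega⟩
  have mp := (measurePreserving_piFinSuccAbove (fun _ : Fin (m + 1) => γ) i).symm
  set e := (MeasurableEquiv.piFinSuccAbove (fun _ : Fin (m + 1) => ℝ) i).symm with he
  have hH2 : PG (fun x : Fin (m + 1) → ℝ => x i • H x) := (PG.apply i).smul hH
  have i0 := (mp.integrable_comp_emb e.measurableEmbedding).2 hH.integrable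
  have i1 := (mp.integrable_comp_emb e.measurableEmbedding).2 hH'.integrable
  have i2 := (mp.integrable_comp_emb e.measurableEmbedding).2 hH2.integrable
  rw [← mp.integral_comp', ← mp.integral_comp']
  rw [integral_prod_symm (fun z => e z i • H (e z)) i2, integral_prod_symm (fun z => H' (e z)) i1]
  refine integral_congr_ae ?_
  filter_upwards [i0.prod_left_ae, i1.prod_left_ae, i2.prod_left_ae] with y a0 a1 a2
  have hu : ∀ s, e (s, y) = Function.update (e (0, y)) i s := by
    intro s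
    simp [he, MeasurableEquiv.piFinSuccAbove_symm_apply, Fin.insertNthEquiv]
  have hi : ∀ s, e (s, y) i = s := by intro s; rw [hu]; simp
  simp only [Function.comp, hi] at a0 a1 a2 ⊢
  refine ibp_one (f := fun s => H (e (s, y))) (f' := fun s => H' (e (s, y))) (fun t => ?_) a0 a1 a2
  have h1 := hd (e (0, y)) t
  simp only [← hu] at h1
  exact h1

/-- the centred quadratic form -/
def S {n : ℕ} (a x : Fin n → ℝ) : ℝ := ∑ k, a k * (x k ^ 2 - 1)

lemma PG_S {n : ℕ} (a : Fin n → ℝ) : PG (S a) :=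
  PG.sum _ fun k _ => PG.const_mul _ (((PG.apply k).pow 2).sub (PG.const 1))

lemma S_update {n : ℕ} (a x : Fin n → ℝ) (i : Fin n) (s : ℝ) :
    S a (Function.update x i s) = S a x + a i * (s ^ 2 - x i ^ 2) := by
  unfold S
  rw [← Finset.add_sum_erase _ _ (Finset.mem_univ i), ← Finset.add_sum_erase _ _ (Finset.mem_univ i)]
  have : ∑ k ∈ Finset.univ.erase i, a k * (Function.update x i s k ^ 2 - 1)
      = ∑ k ∈ Finset.univ.erase i, a k * (x k ^ 2 - 1) :=
    Finset.sum_congr rfl fun k hk => by rw [Function.update_of_ne (Finset.ne_of_mem_erase hk)]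
  rw [this, Function.update_self]; ring

/-- the main integration by parts identity -/
lemma ibp_main {n : ℕ} (a : Fin n → ℝ) (i : Fin n) (k : ℕ) {m : (Fin n → ℝ) → ℝ} (hm : PG m)
    (hmi : ∀ x s, m (Function.update x i s) = m x) {f f' : ℝ → E} (hf : PG f) (hf' : PG f')
    (hd : ∀ y, HasDerivAt f (f' y) y) :
    ∫ x, (x i ^ (2 * k + 2) * m x) • f (S a x) ∂μ n
      = (2 * k + 1 : ℝ) • ∫ x, (x i ^ (2 * k) * m x) • f (S a x) ∂μ n
        + (2 * a i) • ∫ x, (x i ^ (2 * k + 2) * m x) • f' (S a x) ∂μ n := by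
  have p1 : ∀ j : ℕ, PG (fun x : Fin n → ℝ => (x i ^ j * m x) • f (S a x)) := fun j =>
    (((PG.apply i).pow j).mul hm).smul (hf.comp (PG_S a))
  have p2 : ∀ j : ℕ, PG (fun x : Fin n → ℝ => (x i ^ j * m x) • f' (S a x)) := fun j =>
    (((PG.apply i).pow j).mul hm).smul (hf'.comp (PG_S a))
  have key := ibp_coord i (H := fun x => (x i ^ (2 * k + 1) * m x) • f (S a x))
    (H' := fun x => (2 * k + 1 : ℝ) • (x i ^ (2 * k) * m x) • f (S a x)
      + (2 * a i) • (x i ^ (2 * k + 2) * m x) • f' (S a x)) (p1 _)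
    (((PG.const _).smul (p1 _)).add ((PG.const _).smul (p2 _))) (fun x t => by
      simp only [Function.update_self, hmi, S_update]
      have h1 : HasDerivAt (fun s : ℝ => s ^ (2 * k + 1) * m x) ((2 * k + 1 : ℝ) * t ^ (2 * k) * m x) t := by
        simpa using (hasDerivAt_pow (2 * k + 1) t).mul_const (m x)
      have h2 : HasDerivAt (fun s : ℝ => S a x + a i * (s ^ 2 - x i ^ 2)) (a i * (2 * t)) t := by
        simpa using (((hasDerivAt_pow 2 t).sub_const (x i ^ 2)).const_mul (a i)).const_add (S a x)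
      have h3 := (hd (S a x + a i * (t ^ 2 - x i ^ 2))).scomp t h2
      refine HasDerivAt.congr_deriv (h1.smul h3) ?_
      simp only [smul_smul]
      rw [add_comm]
      congr 2 <;> ring)
  rw [integral_add ((PG.const _).smul (p1 _)).integrable ((PG.const _).smul (p2 _)).integrable,
    integral_smul, integral_smul] at key
  rw [← key]
  congr 1; ext x
  rw [smul_smul]; congr 1; ring

/-- moments against a function not depending on the coordinate `i` -/
lemma moment_indep {n : ℕ} (i : Fin n) (k : ℕ) {m : (Fin n → ℝ) → ℝ} (hm : PG m)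
    (hmi : ∀ x s, m (Function.update x i s) = m x) :
    ∫ x, x i ^ (2 * k + 2) * m x ∂μ n = (2 * k + 1 : ℝ) * ∫ x, x i ^ (2 * k) * m x ∂μ n := by
  have := ibp_main (E := ℝ) 0 i k hm hmi (f := fun _ => 1) (f' := fun _ => 0) (PG.const _)
    (PG.const _) (fun y => hasDerivAt_const y 1)
  simpa using this

end Pool.Agent.MP_c22ba5_pr.H86
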