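import Pool.Agent.MP_c22ba5_pr.H86.Var
import Pool.Agent.MP_c22ba5_pr.H86.Alg

/-! Identities for the Hessian at a maximiser. -/

open MeasureTheory ProbabilityTheory Set Filter Topology

namespace Pool.Agent.MP_c22ba5_pr.H86

section
variable {n : ℕ}

noncomputable def Λ0 (q : ℝ) (a : Fin n → ℝ) : ℝ := ∫ x, |S a x| ^ q ∂μ n
noncomputable def Λ1 (q : ℝ) (a : Fin n → ℝ) (i : Fin n) : ℝ := ∫ x, x i ^ 2 * |S a x| ^ q ∂μ n
noncomputable def Λ2 (q : ℝ) (a : Fin n → ℝ) (i j : Fin n) : ℝ :=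
  ∫ x, x i ^ 2 * x j ^ 2 * |S a x| ^ q ∂μ n
noncomputable def lam (q : ℝ) (a : Fin n → ℝ) : ℝ := F q a / (2 * (q + 1))
noncomputable def Dd (q : ℝ) (a : Fin n → ℝ) : ℝ := lam q a - Λ0 q a
noncomputable def Ll (q : ℝ) (a : Fin n → ℝ) (i : Fin n) : ℝ := Λ2 q a i i / 3 - lam q a

variable {q : ℝ} {a : Fin n → ℝ}

lemma ibp_ψ (hq : 0 < q) (a : Fin n → ℝ) (i : Fin n) (k : ℕ) {m : (Fin n → ℝ) → ℝ} (hm : PG m)
    (hmi : ∀ x s, m (Function.update x i s) = m x) :
    ∫ x, x i ^ (2 * k + 2) * m x * ψ q (S a x) ∂μ n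
      = (2 * k + 1 : ℝ) * ∫ x, x i ^ (2 * k) * m x * ψ q (S a x) ∂μ n
        + 2 * a i * (q + 1) * ∫ x, x i ^ (2 * k + 2) * m x * |S a x| ^ q ∂μ n := by
  have := ibp_main a i k hm hmi (PG_ψ hq.le) ((PG.abs_rpow hq.le).const_mul (q + 1))
    (hasDerivAt_ψ hq)
  simp only [smul_eq_mul] at this
  rw [this, mul_assoc (2 * a i), ← integral_const_mul (q + 1)]
  congr 3; ext x; ring

lemma S_single (i : Fin n) (x : Fin n → ℝ) : S (Pi.single i 1) x = x i ^ 2 - 1 := by
  unfold S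
  rw [Finset.sum_eq_single i] <;> simp +contextual

lemma IsMaxi.first' (hq : 0 < q) (h : IsMaxi q a) (i : Fin n) :
    ∫ x, x i ^ 2 * ψ q (S a x) ∂μ n = (∫ x, ψ q (S a x) ∂μ n) + F q a * a i := by
  have h1 := h.first hq (Pi.single i 1)
  have h2 : ∑ k, a k * (Pi.single i 1 : Fin n → ℝ) k = a i := by
    rw [Finset.sum_eq_single i] <;> simp +contextual
  have p := (PG_ψ hq.le).comp (PG_S a)
  simp only [S_single, h2, sub_mul, one_mul] at h1
  rw [integral_sub (((PG.apply i).pow 2).mul p).integrable p.integrable] at h1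
  linarith

lemma F_eq_lam (hq : 0 < q) : F q a = 2 * (q + 1) * lam q a := by
  unfold lam; field_simp

lemma IsMaxi.Λ1_eq (hq : 0 < q) (h : IsMaxi q a) {i : Fin n} (hi : a i ≠ 0) :
    Λ1 q a i = lam q a := by
  have h1 := ibp_ψ hq a i 0 (m := fun _ => 1) (PG.const _) (fun _ _ => rfl)
  simp only [mul_zero, zero_add, mul_one, pow_zero, one_mul, Nat.cast_zero] at h1
  rw [h.first' hq, F_eq_lam hq] at h1
  have : (2 * (q + 1) * a i) * Λ1 q a i = (2 * (q + 1) * a i) * lam q a := by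
    unfold Λ1; linarith
  exact mul_left_cancel₀ (by positivity) this

lemma ibp_pair (hq : 0 < q) {i j : Fin n} (hij : i ≠ j) :
    ∫ x, x i ^ 2 * x j ^ 2 * ψ q (S a x) ∂μ n
      = (∫ x, x j ^ 2 * ψ q (S a x) ∂μ n) + 2 * a i * (q + 1) * Λ2 q a i j := by
  have h1 := ibp_ψ hq a i 0 (m := fun x => x j ^ 2) ((PG.apply j).pow 2)
    (fun _ _ => by rw [Function.update_of_ne hij.symm])
  simpa [Λ2] using h1

lemma Λ2_comm (i j : Fin n) : Λ2 q a i j = Λ2 q a j i := by
  unfold Λ2; congr 1; ext x; ring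

lemma IsMaxi.Λ2_ne (hq : 0 < q) (h : IsMaxi q a) {i j : Fin n} (hij : a i ≠ a j) :
    Λ2 q a i j = lam q a := by
  have hne : i ≠ j := by rintro rfl; exact hij rfl
  have h1 := ibp_pair (a := a) hq hne
  have h2 := ibp_pair (a := a) hq hne.symm
  have h3 : ∫ x, x j ^ 2 * x i ^ 2 * ψ q (S a x) ∂μ n = ∫ x, x i ^ 2 * x j ^ 2 * ψ q (S a x) ∂μ n := by
    congr 1; ext x; ring
  rw [h3, h1, h.first' hq, h.first' hq, F_eq_lam hq, Λ2_comm j i] at h2
  have : (2 * (q + 1) * (a i - a j)) * Λ2 q a i j = (2 * (q + 1) * (a i - a j)) * lam q a := by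
    linarith
  exact mul_left_cancel₀ (mul_ne_zero (by positivity) (sub_ne_zero.2 hij)) this

lemma Λ2_eq (hq : 0 < q) {i j : Fin n} (hne : i ≠ j) (hij : a i = a j) (hi : a i ≠ 0) :
    Λ2 q a i j = Λ2 q a i i / 3 := by
  have h1 := ibp_pair (a := a) hq hne.symm
  have h2 := ibp_ψ hq a i 1 (m := fun _ => 1) (PG.const _) (fun _ _ => rfl)
  have h3 := ibp_ψ hq a i 1 (m := fun x => x j ^ 2) ((PG.apply j).pow 2)
    (fun _ _ => by rw [Function.update_of_ne hne.symm])
  have h4 := ibp_ψ hq a j 0 (m := fun x => x i ^ 4) ((PG.apply i).pow 4)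
    (fun _ _ => by rw [Function.update_of_ne hne])
  norm_num at h2 h3 h4
  have e1 : ∫ x, x j ^ 2 * x i ^ 4 * ψ q (S a x) ∂μ n = ∫ x, x i ^ 4 * x j ^ 2 * ψ q (S a x) ∂μ n := by
    congr 1; ext x; ring
  have e2 : ∫ x, x j ^ 2 * x i ^ 4 * |S a x| ^ q ∂μ n = ∫ x, x i ^ 4 * x j ^ 2 * |S a x| ^ q ∂μ n := by
    congr 1; ext x; ring
  have e3 : ∫ x, x j ^ 2 * x i ^ 2 * ψ q (S a x) ∂μ n = ∫ x, x i ^ 2 * x j ^ 2 * ψ q (S a x) ∂μ n := by
    congr 1; ext x; ring
  have e4 : ∫ x, x i ^ 4 * |S a x| ^ q ∂μ n = Λ2 q a i i := by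
    unfold Λ2; congr 1; ext x; ring
  rw [e1, e2, ← hij] at h4
  rw [e3, ← hij, Λ2_comm j i] at h1
  rw [e4] at h2
  have : (2 * (q + 1) * a i) * (3 * Λ2 q a i j) = (2 * (q + 1) * a i) * Λ2 q a i i := by
    linarith
  have := mul_left_cancel₀ (by positivity) this
  linarith

lemma H_expand (hq : 0 < q) (i j : Fin n) :
    ∫ x, (x i ^ 2 - 1) * (x j ^ 2 - 1) * |S a x| ^ q ∂μ n
      = Λ2 q a i j - Λ1 q a i - Λ1 q a j + Λ0 q a := by
  have p := (PG.abs_rpow hq.le).comp (PG_S a)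
  have pi := ((PG.apply i).pow 2).mul p
  have pj := ((PG.apply j).pow 2).mul p
  have pij := (((PG.apply i).pow 2).mul ((PG.apply j).pow 2)).mul p
  unfold Λ2 Λ1 Λ0
  rw [← integral_sub pij.integrable pi.integrable, ← integral_sub (pij.sub pi).integrable pj.integrable,
    ← integral_add ((pij.sub pi).sub pj).integrable p.integrable]
  congr 1; ext x; ring

lemma IsMaxi.H_eq (hq : 0 < q) (h : IsMaxi q a) {i j : Fin n} (hi : a i ≠ 0) (hj : a j ≠ 0) :
    ∫ x, (x i ^ 2 - 1) * (x j ^ 2 - 1) * |S a x| ^ q ∂μ n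
      = Kmat a (Ll q a) i j - Dd q a + (if i = j then 2 * lam q a else 0) := by
  rw [H_expand hq, h.Λ1_eq hq hi, h.Λ1_eq hq hj]
  unfold Kmat Dd Ll
  by_cases hij : i = j
  · subst hij; simp; ring
  · by_cases he : a i = a j
    · rw [Λ2_eq hq hij he hi]; simp [hij, he]; ring
    · rw [h.Λ2_ne hq he]; simp [hij, he]; ring

lemma sum_H (hq : 0 < q) (u v : Fin n → ℝ) :
    ∫ x, S u x * S v x * |S a x| ^ q ∂μ n
      = ∑ k, ∑ l, u k * v l * ∫ x, (x k ^ 2 - 1) * (x l ^ 2 - 1) * |S a x| ^ q ∂μ n := by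
  have p := (PG.abs_rpow hq.le).comp (PG_S a)
  have pk : ∀ k l : Fin n, PG fun x : Fin n → ℝ =>
      u k * v l * ((x k ^ 2 - 1) * (x l ^ 2 - 1) * |S a x| ^ q) := fun k l =>
    PG.const_mul _ (((((PG.apply k).pow 2).sub (PG.const 1)).mul
      (((PG.apply l).pow 2).sub (PG.const 1))).mul p)
  simp only [← integral_const_mul]
  rw [← Finset.sum_product' (f := fun k l => ∫ x,
    u k * v l * ((x k ^ 2 - 1) * (x l ^ 2 - 1) * |S a x| ^ q) ∂μ n),
    ← integral_finsetSum _ fun kl _ => (pk kl.1 kl.2).integrable]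
  congr 1; ext x
  rw [Finset.sum_product' (f := fun k l =>
    u k * v l * ((x k ^ 2 - 1) * (x l ^ 2 - 1) * |S a x| ^ q))]
  nth_rewrite 1 [S, S]
  rw [Finset.sum_mul_sum, Finset.sum_mul]
  refine Finset.sum_congr rfl fun k _ => ?_
  rw [Finset.sum_mul]
  exact Finset.sum_congr rfl fun l _ => by ring

lemma IsMaxi.hom (hq : 0 < q) (h : IsMaxi q a) (i : Fin n) (hi : a i ≠ 0) :
    ∑ j, a j * Kmat a (Ll q a) i j = 2 * q * lam q a * a i + Dd q a * ∑ k, a k := by
  have h1 := sum_H (a := a) hq (Pi.single i 1) a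
  have h2 := h.first hq (Pi.single i 1)
  have h3 : ∑ k, a k * (Pi.single i 1 : Fin n → ℝ) k = a i := by
    rw [Finset.sum_eq_single i] <;> simp +contextual
  rw [Finset.sum_eq_single i (by simp +contextual) (by simp)] at h1
  have h4 : ∀ l, (Pi.single i 1 : Fin n → ℝ) i * a l *
      ∫ x, (x i ^ 2 - 1) * (x l ^ 2 - 1) * |S a x| ^ q ∂μ n
      = a l * Kmat a (Ll q a) i l - Dd q a * a l + (if i = l then 2 * lam q a * a i else 0) := by
    intro l
    by_cases hl : a l = 0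
    · have : i ≠ l := by rintro rfl; exact hi hl
      simp [hl, this]
    · rw [h.H_eq hq hi hl]
      by_cases he : i = l
      · subst he; simp; ring
      · simp [he]; ring
  simp only [h4, Finset.sum_add_distrib, Finset.sum_sub_distrib, ← Finset.mul_sum,
    Finset.sum_ite_eq, Finset.mem_univ, if_true] at h1
  simp only [ψ, ← mul_assoc] at h2
  rw [h1, h3, F_eq_lam hq] at h2
  linarith

lemma IsMaxi.sec (hq : 0 < q) (h : IsMaxi q a) (v : Fin n → ℝ) (hv : ∀ i, a i = 0 → v i = 0)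
    (hv' : ∑ k, a k * v k = 0) :
    ∑ k, ∑ l, v k * v l * Kmat a (Ll q a) k l ≤ Dd q a * (∑ k, v k) ^ 2 := by
  have h1 := h.second hq v hv'
  have h2 := sum_H (a := a) hq v v
  have h4 : ∀ k l, v k * v l * ∫ x, (x k ^ 2 - 1) * (x l ^ 2 - 1) * |S a x| ^ q ∂μ n
      = v k * v l * Kmat a (Ll q a) k l - Dd q a * (v k * v l)
        + (if k = l then 2 * lam q a * v k ^ 2 else 0) := by
    intro k l
    by_cases hk : a k = 0
    · simp [hv k hk]
    by_cases hl : a l = 0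
    · have : k ≠ l := by rintro rfl; exact hk hl
      simp [hv l hl, this]
    · rw [h.H_eq hq hk hl]
      by_cases he : k = l
      · subst he; simp; ring
      · simp [he]; ring
  simp only [h4, Finset.sum_add_distrib, Finset.sum_sub_distrib, ← Finset.mul_sum,
    Finset.sum_ite_eq, Finset.mem_univ, if_true, ← Finset.sum_mul, ← sq] at h2
  rw [h2, F_eq_lam hq] at h1
  have : (q + 1) * ∑ k, ∑ l, v k * v l * Kmat a (Ll q a) k l
      ≤ (q + 1) * (Dd q a * (∑ k, v k) ^ 2) := by linarith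
  exact le_of_mul_le_mul_left this (by linarith)

lemma Ll_symm (hq : 0 < q) (i j : Fin n) (he : a i = a j) (hi : a i ≠ 0) :
    Ll q a i = Ll q a j := by
  by_cases hij : i = j
  · rw [hij]
  unfold Ll
  rw [← Λ2_eq hq hij he hi, ← Λ2_eq hq (Ne.symm hij) he.symm (he ▸ hi), Λ2_comm]

lemma Dd_eq (hq : 0 < q) (h : IsMaxi q a) {i : Fin n} (hi : a i ≠ 0) :
    Dd q a = ∫ x, (x i ^ 2 - 1) * |S a x| ^ q ∂μ n := by
  have p := (PG.abs_rpow hq.le).comp (PG_S a)
  unfold Dd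
  rw [← h.Λ1_eq hq hi, Λ1, Λ0, ← integral_sub (((PG.apply i).pow 2).mul p).integrable p.integrable]
  congr 1; ext x; ring

lemma Ll_eq (hq : 0 < q) (h : IsMaxi q a) {i : Fin n} (hi : a i ≠ 0) :
    Ll q a i = ∫ x, (x i ^ 4 / 3 - x i ^ 2) * |S a x| ^ q ∂μ n := by
  have p := (PG.abs_rpow hq.le).comp (PG_S a)
  unfold Ll
  rw [← h.Λ1_eq hq hi, Λ1, Λ2, div_eq_inv_mul, ← integral_const_mul, ← integral_sub
    (((((PG.apply i).pow 2).mul ((PG.apply i).pow 2)).mul p).const_mul _).integrable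
    (((PG.apply i).pow 2).mul p).integrable]
  congr 1; ext x; ring

lemma integral_ψ (hq : 0 ≤ q) (a : Fin n → ℝ) :
    ∫ x, ψ q (S a x) ∂μ n = ∑ k, a k * ∫ x, (x k ^ 2 - 1) * |S a x| ^ q ∂μ n := by
  have p := (PG.abs_rpow hq).comp (PG_S a)
  simp only [← integral_const_mul]
  rw [← integral_finsetSum _ fun k _ =>
    (PG.const_mul _ ((((PG.apply k).pow 2).sub (PG.const 1)).mul p)).integrable]
  congr 1; ext x
  unfold ψ
  nth_rewrite 1 [S]
  rw [Finset.sum_mul]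
  exact Finset.sum_congr rfl fun l _ => by ring

lemma IsMaxi.skew_eq (hq : 0 < q) (h : IsMaxi q a) :
    ∫ x, ψ q (S a x) ∂μ n = Dd q a * ∑ k, a k := by
  rw [integral_ψ hq.le, Finset.mul_sum]
  refine Finset.sum_congr rfl fun k _ => ?_
  by_cases hk : a k = 0
  · simp [hk]
  · rw [← Dd_eq hq h hk, mul_comm]

/-- the part of `S` not depending on the coordinate `i` -/
noncomputable def Rr (a : Fin n → ℝ) (i : Fin n) (x : Fin n → ℝ) : ℝ := S a x - a i * x i ^ 2

lemma PG_Rr (a : Fin n → ℝ) (i : Fin n) : PG (Rr a i) :=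
  (PG_S a).sub (((PG.apply i).pow 2).const_mul _)

lemma Rr_update (a : Fin n → ℝ) (i : Fin n) (x : Fin n → ℝ) (s : ℝ) :
    Rr a i (Function.update x i s) = Rr a i x := by
  simp only [Rr, S_update, Function.update_self]; ring

lemma moments (i : Fin n) {m : (Fin n → ℝ) → ℝ} (hm : PG m)
    (hmi : ∀ x s, m (Function.update x i s) = m x) (c0 c1 c2 c3 : ℝ) :
    ∫ x, (c0 + c1 * x i ^ 2 + c2 * x i ^ 4 + c3 * x i ^ 6) * m x ∂μ n
      = (c0 + c1 + 3 * c2 + 15 * c3) * ∫ x, m x ∂μ n := by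
  have h0 := moment_indep i 0 hm hmi
  have h1 := moment_indep i 1 hm hmi
  have h2 := moment_indep i 2 hm hmi
  norm_num at h0 h1 h2
  have p : ∀ (c : ℝ) (k : ℕ), PG fun x : Fin n → ℝ => c * (x i ^ k * m x) := fun c k =>
    (((PG.apply i).pow k).mul hm).const_mul c
  have : ∀ x : Fin n → ℝ, (c0 + c1 * x i ^ 2 + c2 * x i ^ 4 + c3 * x i ^ 6) * m x
      = c0 * m x + c1 * (x i ^ 2 * m x) + c2 * (x i ^ 4 * m x) + c3 * (x i ^ 6 * m x) := fun x => by
    ring
  simp only [this]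
  rw [integral_add (((hm.const_mul c0).add (p _ _)).add (p _ _)).integrable (p _ _).integrable,
    integral_add ((hm.const_mul c0).add (p _ _)).integrable (p _ _).integrable,
    integral_add (hm.const_mul c0).integrable (p _ _).integrable]
  simp only [integral_const_mul]
  rw [h2, h1, h0]; ring

lemma convexOn_abs_rpow (hq : 1 ≤ q) : ConvexOn ℝ univ fun y : ℝ => |y| ^ q := by
  refine ⟨convex_univ, fun x _ y _ s t hs ht hst => ?_⟩
  have h1 : |s • x + t • y| ≤ s • |x| + t • |y| := by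
    simp only [smul_eq_mul]
    refine (abs_add_le _ _).trans ?_
    rw [abs_mul, abs_mul, abs_of_nonneg hs, abs_of_nonneg ht]
  have h2 := (convexOn_rpow hq).2 (show |x| ∈ Ici (0 : ℝ) from abs_nonneg x)
    (show |y| ∈ Ici (0 : ℝ) from abs_nonneg y) hs ht hst
  exact le_trans (Real.rpow_le_rpow (abs_nonneg _) h1 (by linarith)) h2

lemma secant_ineq {f : ℝ → ℝ} (hf : ConvexOn ℝ univ f) {u1 u2 : ℝ} (h : u1 < u2) (u : ℝ) :
    0 ≤ (u - u1) * (u - u2) * ((u2 - u1) * f u - ((u2 - u) * f u1 + (u - u1) * f u2)) := by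
  rcases lt_trichotomy u u1 with h1 | rfl | h1
  · have := hf.secant_mono_aux1 (mem_univ u) (mem_univ u2) h1 h
    exact mul_nonneg (mul_nonneg_of_nonpos_of_nonpos (by linarith) (by linarith)) (by linarith)
  · simp
  rcases lt_trichotomy u u2 with h2 | rfl | h2
  · have := hf.secant_mono_aux1 (mem_univ u1) (mem_univ u2) h1 h2
    exact mul_nonneg_of_nonpos_of_nonpos
      (mul_nonpos_of_nonneg_of_nonpos (by linarith) (by linarith)) (by linarith)
  · simp
  · have := hf.secant_mono_aux1 (mem_univ u1) (mem_univ u) h h2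
    exact mul_nonneg (mul_nonneg (by linarith) (by linarith)) (by linarith)

lemma IsMaxi.conv (hq : 1 ≤ q) (h : IsMaxi q a) (i : Fin n) (hi : a i ≠ 0) :
    Dd q a ≤ Ll q a i := by
  have hq0 : 0 < q := by linarith
  have p := (PG.abs_rpow hq0.le).comp (PG_S a)
  set r : ℝ := √6 with hr
  have hr2 : r ^ 2 = 6 := Real.sq_sqrt (by norm_num)
  have hr0 : 0 < r := Real.sqrt_pos.2 (by norm_num)
  have pm : ∀ c : ℝ, PG fun x => |Rr a i x + a i * c| ^ q := fun c =>
    (PG.abs_rpow hq0.le).comp ((PG_Rr a i).add (PG.const _))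
  have m1 := moments i (pm (3 - r)) (fun x s => by rw [Rr_update]) (3 * (3 + r)) (-6 * (3 + r) - 3)
    (3 + r + 6) (-1)
  have m2 := moments i (pm (3 + r)) (fun x s => by rw [Rr_update]) (-3 * (3 - r)) (6 * (3 - r) + 3)
    (-(3 - r) - 6) 1
  have pp : ∀ c0 c1 c2 c3 : ℝ,
      PG fun x : Fin n → ℝ => c0 + c1 * x i ^ 2 + c2 * x i ^ 4 + c3 * x i ^ 6 := fun c0 c1 c2 c3 =>
    (((PG.const _).add (((PG.apply i).pow 2).const_mul _)).add
      (((PG.apply i).pow 4).const_mul _)).add (((PG.apply i).pow 6).const_mul _)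
  have pL : PG fun x : Fin n → ℝ => (x i ^ 4 / 3 - x i ^ 2) * |S a x| ^ q := by
    have := (pp 0 (-1) (1 / 3) 0).mul p
    convert this using 3; ring
  have pD : PG fun x : Fin n → ℝ => (x i ^ 2 - 1) * |S a x| ^ q :=
    (((PG.apply i).pow 2).sub (PG.const 1)).mul p
  have key : 0 ≤ ∫ x, (6 * r * ((x i ^ 4 / 3 - x i ^ 2) * |S a x| ^ q - (x i ^ 2 - 1) * |S a x| ^ q)
      - (3 * (3 + r) + (-6 * (3 + r) - 3) * x i ^ 2 + (3 + r + 6) * x i ^ 4 + (-1) * x i ^ 6)
          * |Rr a i x + a i * (3 - r)| ^ q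
      - (-3 * (3 - r) + (6 * (3 - r) + 3) * x i ^ 2 + (-(3 - r) - 6) * x i ^ 4 + 1 * x i ^ 6)
          * |Rr a i x + a i * (3 + r)| ^ q) ∂μ n := by
    refine integral_nonneg fun x => ?_
    have hc : ConvexOn ℝ univ fun u : ℝ => |Rr a i x + a i * u| ^ q := by
      refine ⟨convex_univ, fun u _ w _ s t hs ht hst => ?_⟩
      have := (convexOn_abs_rpow hq).2 (mem_univ (Rr a i x + a i * u))
        (mem_univ (Rr a i x + a i * w)) hs ht hst
      have e : s • (Rr a i x + a i * u) + t • (Rr a i x + a i * w)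
          = Rr a i x + a i * (s • u + t • w) := by
        simp only [smul_eq_mul]; linear_combination (Rr a i x) * hst
      rwa [e] at this
    have := secant_ineq hc (show 3 - r < 3 + r by linarith) (x i ^ 2)
    have e : Rr a i x + a i * x i ^ 2 = S a x := by simp [Rr]
    simp only [e] at this
    have e2 : (x i ^ 2 - (3 - r)) * (x i ^ 2 - (3 + r)) = x i ^ 4 - 6 * x i ^ 2 + 3 := by
      linear_combination -hr2
    rw [e2] at this
    simp only [Pi.zero_apply]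
    linarith
  rw [integral_sub (((pL.sub pD).const_mul _).sub ((pp _ _ _ _).mul (pm _))).integrable
      ((pp _ _ _ _).mul (pm _)).integrable,
    integral_sub ((pL.sub pD).const_mul _).integrable ((pp _ _ _ _).mul (pm _)).integrable,
    m1, m2, integral_const_mul, integral_sub pL.integrable pD.integrable, ← Ll_eq hq0 h hi,
    ← Dd_eq hq0 h hi] at key
  have : 0 ≤ 6 * r * (Ll q a i - Dd q a) := by linarith
  have := nonneg_of_mul_nonneg_right this (by positivity)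
  linarith

/-- one step of the skewness recursion -/
lemma skew_step (hq : 0 ≤ q) (ha : ∀ k, 0 ≤ a k) (h : 0 ≤ ∫ x, ψ q (S a x) ∂μ n) :
    0 ≤ ∫ x, ψ (q + 2) (S a x) ∂μ n := by
  rw [integral_ψ (by linarith)]
  refine Finset.sum_nonneg fun k _ => mul_nonneg (ha k) ?_
  have p := (PG.abs_rpow (show 0 ≤ q + 2 by linarith)).comp (PG_S a)
  have p' := (PG_ψ hq).comp (PG_S a)
  have h1 := ibp_main a k 0 (m := fun _ => 1) (PG.const _) (fun _ _ => rfl)
    (PG.abs_rpow (show 0 ≤ q + 2 by linarith)) ((PG_ψ hq).const_mul (q + 2))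
    (hasDerivAt_pow_abs hq)
  simp only [mul_zero, zero_add, mul_one, pow_zero, Nat.cast_zero, smul_eq_mul, one_mul] at h1
  simp only [sub_mul, one_mul]
  rw [integral_sub (((PG.apply k).pow 2).mul p).integrable p.integrable, h1, add_sub_cancel_left]
  refine mul_nonneg (by linarith [ha k]) ?_
  have e : ∀ x : Fin n → ℝ, x k ^ 2 * ((q + 2) * ψ q (S a x)) = (q + 2) * (x k ^ 2 * ψ q (S a x)) :=
    fun x => by ring
  simp only [e, integral_const_mul]
  refine mul_nonneg (by linarith) ?_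
  have pm : PG fun x => ψ q (Rr a k x + a k) := (PG_ψ hq).comp ((PG_Rr a k).add (PG.const _))
  have m1 := moments k pm (fun x s => by rw [Rr_update]) (-1) 1 0 0
  have key : 0 ≤ ∫ x, (x k ^ 2 * ψ q (S a x) - ψ q (S a x)
      - (-1 + 1 * x k ^ 2 + 0 * x k ^ 4 + 0 * x k ^ 6) * ψ q (Rr a k x + a k)) ∂μ n := by
    refine integral_nonneg fun x => ?_
    have e : S a x = Rr a k x + a k * x k ^ 2 := by simp [Rr]
    simp only [Pi.zero_apply]
    rcases le_total 1 (x k ^ 2) with h2 | h2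
    · have := monotone_ψ hq (show Rr a k x + a k ≤ S a x by rw [e]; nlinarith [ha k])
      nlinarith
    · have := monotone_ψ hq (show S a x ≤ Rr a k x + a k by rw [e]; nlinarith [ha k])
      nlinarith
  have pp : PG fun x : Fin n → ℝ => -1 + 1 * x k ^ 2 + 0 * x k ^ 4 + 0 * x k ^ 6 :=
    (((PG.const _).add (((PG.apply k).pow 2).const_mul _)).add
      (((PG.apply k).pow 4).const_mul _)).add (((PG.apply k).pow 6).const_mul _)
  rw [integral_sub ((((PG.apply k).pow 2).mul p').sub p').integrable (pp.mul pm).integrable,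
    integral_sub (((PG.apply k).pow 2).mul p').integrable p'.integrable, m1] at key
  linarith

lemma skew_zero (a : Fin n → ℝ) : ∫ x, ψ 0 (S a x) ∂μ n = 0 := by
  rw [integral_ψ le_rfl]
  refine Finset.sum_eq_zero fun k _ => ?_
  have m1 := moments k (m := fun _ => 1) (PG.const _) (fun x s => rfl) (-1) 1 0 0
  have : ∫ x, (x k ^ 2 - 1) * |S a x| ^ (0 : ℝ) ∂μ n = 0 := by
    rw [show (-1 + 1 + 3 * 0 + 15 * 0 : ℝ) = 0 by norm_num, zero_mul] at m1
    refine Eq.trans ?_ m1; congr 1; ext x; simp; ring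
  rw [this, mul_zero]

end

end Pool.Agent.MP_c22ba5_pr.H86
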