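import Pool.Agent.MP_c22ba5_pr.H86.Skew

/-! Rotation of the contour to the imaginary axis, and integrable singularities. -/

open MeasureTheory Set Filter Topology Complex

namespace Pool.Agent.MP_c22ba5_pr.H86

lemma rotate {G : ℂ → ℂ} {W : ℝ → ℝ} {C δ : ℝ} (hδ : 0 < δ)
    (hG : DifferentiableOn ℂ G {z | 0 < z.re})
    (hreal : IntegrableOn (fun x : ℝ => G x) (Ioi 0))
    (hW : IntegrableOn W (Ioi 0))
    (hb : ∀ᵐ η : ℝ, 0 < η → ∀ ε : ℝ, 0 < ε → ‖G (ε + η * I)‖ ≤ W η)
    (hl : ∀ᵐ η : ℝ, 0 < η → Tendsto (fun ε : ℝ => G (ε + η * I)) (𝓝[>] 0) (𝓝 (G (η * I))))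
    (hdec : ∀ᶠ R : ℝ in atTop, ∀ x y : ℝ, 0 < x → 0 ≤ y → (x = R ∨ y = R) →
      ‖G (x + y * I)‖ ≤ C * R ^ (-δ - 1)) :
    IntegrableOn (fun η : ℝ => G (η * I)) (Ioi 0) ∧
      ∫ x in Ioi (0 : ℝ), G x = I * ∫ η in Ioi (0 : ℝ), G (η * I) := by
  have hinv : Tendsto (fun R : ℝ => R⁻¹) atTop (𝓝[>] 0) := tendsto_inv_atTop_nhdsGT_zero
  have hc : ∀ ε : ℝ, 0 < ε → Continuous fun η : ℝ => G (ε + η * I) := fun ε hε =>
    hG.continuousOn.comp_continuous (by fun_prop) fun η => by simpa using hε
  have hl' : ∀ᵐ η : ℝ ∂(volume.restrict (Ioi (0 : ℝ))),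
      Tendsto (fun R : ℝ => G (((R⁻¹ : ℝ) : ℂ) + η * I)) atTop (𝓝 (G (η * I))) := by
    rw [ae_restrict_iff' measurableSet_Ioi]
    filter_upwards [hl] with η h hη using (h hη).comp hinv
  have hm : AEStronglyMeasurable (fun η : ℝ => G (η * I)) (volume.restrict (Ioi 0)) := by
    refine aestronglyMeasurable_of_tendsto_ae (𝓝[>] (0 : ℝ))
      (f := fun (ε η : ℝ) => if 0 < ε then G (ε + η * I) else 0) (fun ε => ?_) ?_
    · by_cases h : 0 < ε
      · simpa [h] using (hc ε h).aestronglyMeasurable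
      · simpa [h] using aestronglyMeasurable_const
    · rw [ae_restrict_iff' measurableSet_Ioi]
      filter_upwards [hl] with η h hη
      refine (h hη).congr' ?_
      filter_upwards [self_mem_nhdsWithin] with ε hε
      rw [if_pos (show 0 < ε from hε)]
  have hint : IntegrableOn (fun η : ℝ => G (η * I)) (Ioi 0) := by
    refine hW.mono' hm ?_
    rw [ae_restrict_iff' measurableSet_Ioi]
    filter_upwards [hl, hb] with η h h' hη
    refine le_of_tendsto (h hη).norm ?_
    filter_upwards [self_mem_nhdsWithin] with ε hε using h' hη ε hε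
  refine ⟨hint, ?_⟩
  have t1 := tendsto_interval hreal
  have t4 : Tendsto (fun R : ℝ => ∫ y in (0 : ℝ)..R, G (((R⁻¹ : ℝ) : ℂ) + y * I)) atTop
      (𝓝 (∫ η in Ioi (0 : ℝ), G (η * I))) := by
    have : Tendsto (fun R : ℝ => ∫ η in Ioi (0 : ℝ),
        (Iic R).indicator (fun y : ℝ => G (((R⁻¹ : ℝ) : ℂ) + y * I)) η) atTop
        (𝓝 (∫ η in Ioi (0 : ℝ), G (η * I))) := by
      refine tendsto_integral_filter_of_dominated_convergence W ?_ ?_ hW ?_
      · filter_upwards [eventually_gt_atTop 0] with R hR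
        exact ((hc _ (inv_pos.2 hR)).aestronglyMeasurable).indicator measurableSet_Iic
      · filter_upwards [eventually_gt_atTop 0] with R hR
        rw [ae_restrict_iff' measurableSet_Ioi]
        filter_upwards [hb] with η h hη
        exact (norm_indicator_le_norm_self _ _).trans (h hη _ (inv_pos.2 hR))
      · filter_upwards [hl'] with η h
        refine h.congr' ?_
        filter_upwards [eventually_ge_atTop η] with R hR
        rw [indicator_of_mem (show η ∈ Iic R from hR)]
    refine this.congr' ?_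
    filter_upwards [eventually_ge_atTop 0] with R hR
    rw [intervalIntegral.integral_of_le hR, integral_indicator measurableSet_Iic,
      Measure.restrict_restrict measurableSet_Iic, inter_comm, Ioi_inter_Iic]
  have lim0 : Tendsto (fun R : ℝ => |C| * R ^ (-δ)) atTop (𝓝 0) := by
    simpa using (tendsto_rpow_neg_atTop hδ).const_mul |C|
  have side : ∀ R : ℝ, 1 ≤ R → ∀ t : ℝ, 0 ≤ t → t ≤ R →
      C * R ^ (-δ - 1) * |R - t| ≤ |C| * R ^ (-δ) := by
    intro R hR t ht htR
    have hR0 : 0 < R := by linarith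
    rw [Real.rpow_sub_one hR0.ne', abs_of_nonneg (by linarith)]
    have h1 : 0 < R ^ (-δ) := by positivity
    calc C * (R ^ (-δ) / R) * (R - t) ≤ |C| * (R ^ (-δ) / R) * R := by
          gcongr
          · exact le_abs_self C
          · linarith
      _ = _ := by field_simp
  have t2 : Tendsto (fun R : ℝ => ∫ x in R⁻¹..R, G (x + R * I)) atTop (𝓝 0) := by
    refine squeeze_zero_norm' ?_ lim0
    filter_upwards [hdec, eventually_ge_atTop 1] with R h hR
    have hR0 : 0 < R := by linarith
    have hle : R⁻¹ ≤ R := (inv_le_one_of_one_le₀ hR).trans hR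
    refine (intervalIntegral.norm_integral_le_of_norm_le_const (C := C * R ^ (-δ - 1))
      fun x hx => ?_).trans (side R hR _ (by positivity) hle)
    rw [uIoc_of_le hle] at hx
    exact h x R ((inv_pos.2 hR0).trans hx.1) hR0.le (Or.inr rfl)
  have t3 : Tendsto (fun R : ℝ => ∫ y in (0 : ℝ)..R, G (R + y * I)) atTop (𝓝 0) := by
    refine squeeze_zero_norm' ?_ lim0
    filter_upwards [hdec, eventually_ge_atTop 1] with R h hR
    have hR0 : 0 < R := by linarith
    refine (intervalIntegral.norm_integral_le_of_norm_le_const (C := C * R ^ (-δ - 1))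
      fun y hy => ?_).trans (side R hR _ le_rfl hR0.le)
    rw [uIoc_of_le hR0.le] at hy
    exact h R y hR0 hy.1.le (Or.inl rfl)
  have tot := ((t1.sub t2).add (t3.const_mul I)).sub (t4.const_mul I)
  have z0 : ∀ᶠ R : ℝ in atTop, (∫ x in R⁻¹..R, G x) - (∫ x in R⁻¹..R, G (x + R * I))
      + I * (∫ y in (0 : ℝ)..R, G (R + y * I))
      - I * (∫ y in (0 : ℝ)..R, G (((R⁻¹ : ℝ) : ℂ) + y * I)) = 0 := by
    filter_upwards [eventually_ge_atTop 1] with R hR
    have hR0 : 0 < R := by linarith
    have hle : R⁻¹ ≤ R := (inv_le_one_of_one_le₀ hR).trans hR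
    have := Complex.integral_boundary_rect_eq_zero_of_differentiableOn G ((R⁻¹ : ℝ) : ℂ)
      (R + R * I) (hG.mono fun z hz => by
        have := hz.1
        simp only [ofReal_re, add_re, mul_re, I_re, mul_zero, ofReal_im, I_im, mul_one, sub_self,
          add_zero, mem_preimage, uIcc_of_le hle] at this
        exact (inv_pos.2 hR0).trans_le this.1)
    simpa only [ofReal_re, add_re, mul_re, I_re, mul_zero, ofReal_im, I_im, mul_one, sub_self,
      add_zero, add_im, mul_im, zero_add, ofReal_zero, zero_mul, smul_eq_mul] using this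
  have := tendsto_nhds_unique tot (tendsto_const_nhds.congr' (z0.mono fun R h => h.symm))
  linear_combination this

lemma integrableOn_mul_sing {f : ℝ → ℝ} {s : Set ℝ} (hf : IntegrableOn f s) {c : ℝ}
    (hc : ContinuousAt f c) : IntegrableOn (fun η => f η * |η - c| ^ (-(1 / 2) : ℝ)) s := by
  obtain ⟨δ, hδ, hb⟩ := Metric.continuousAt_iff.1 hc 1 one_pos
  have h1 : IntegrableOn (fun x : ℝ => |x| ^ (-(1 / 2) : ℝ)) (Metric.ball 0 δ) :=
    integrableOn_ball_of_norm_le_rpow (C := 1) (α := 1 / 2) (by simp) (by simp; norm_num)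
      (ae_of_all _ fun x => by
        rw [Real.norm_of_nonneg (by positivity), one_mul, Real.norm_eq_abs])
      (Measurable.aestronglyMeasurable (by fun_prop))
  have h2 := ((integrable_indicator_iff Metric.isOpen_ball.measurableSet).2 h1).comp_sub_right c
  refine ((hf.norm.mul_const (δ ^ (-(1 / 2) : ℝ))).add
    (h2.const_mul (|f c| + 1)).integrableOn).mono'
    (hf.1.mul (Measurable.aestronglyMeasurable (by fun_prop))) (ae_of_all _ fun η => ?_)
  rw [norm_mul, Real.norm_of_nonneg (show 0 ≤ |η - c| ^ (-(1 / 2) : ℝ) by positivity)]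
  simp only [Pi.add_apply]
  by_cases h : |η - c| < δ
  · rw [indicator_of_mem (by simpa using h)]
    have := hb (show dist η c < δ from h)
    rw [Real.dist_eq] at this
    have h3 : ‖f η‖ ≤ |f c| + 1 := by
      have := abs_sub_abs_le_abs_sub (f η) (f c)
      rw [Real.norm_eq_abs]; linarith
    have h4 : 0 ≤ ‖f η‖ * δ ^ (-(1 / 2) : ℝ) := by positivity
    have h5 : ‖f η‖ * |η - c| ^ (-(1 / 2) : ℝ) ≤ (|f c| + 1) * |η - c| ^ (-(1 / 2) : ℝ) := by gcongr
    linarith
  · rw [indicator_of_notMem (by simpa using h), mul_zero, add_zero]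
    exact mul_le_mul_of_nonneg_left
      (Real.rpow_le_rpow_of_nonpos hδ (not_lt.1 h) (by norm_num)) (norm_nonneg _)

lemma continuousAt_finset_prod_aux {ι : Type*} (a : ι → ℝ) (s : Finset ι) (η : ℝ)
    (h : ∀ k ∈ s, 1 - 2 * a k * η ≠ 0) :
    ContinuousAt (fun η => ∏ k ∈ s, |1 - 2 * a k * η| ^ (-(1 / 2) : ℝ)) η :=
  tendsto_finsetProd s fun k hk =>
    ContinuousAt.rpow_const (f := fun η => |1 - 2 * a k * η|) (by fun_prop)
      (Or.inl (abs_ne_zero.2 (h k hk)))

lemma integrableOn_prod_sing {ι : Type*} (a : ι → ℝ) {f : ℝ → ℝ} (hf : IntegrableOn f (Ioi 0))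
    (hc : ∀ η, 0 < η → ContinuousAt f η) (s : Finset ι)
    (hinj : ∀ k ∈ s, ∀ l ∈ s, 0 < a k → a k = a l → k = l) :
    IntegrableOn (fun η => f η * ∏ k ∈ s, |1 - 2 * a k * η| ^ (-(1 / 2) : ℝ)) (Ioi 0) := by
  classical
  induction s using Finset.induction_on with
  | empty => simpa using hf
  | insert j s hj ih =>
    have ih' := ih fun k hk l hl => hinj k (Finset.mem_insert_of_mem hk) l (Finset.mem_insert_of_mem hl)
    simp only [Finset.prod_insert hj]
    rcases le_or_gt (a j) 0 with h | h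
    · have := ih'.mul_bdd (g := fun η => |1 - 2 * a j * η| ^ (-(1 / 2) : ℝ)) (c := 1)
        (Measurable.aestronglyMeasurable (by fun_prop)) (by
          rw [ae_restrict_iff' measurableSet_Ioi]
          refine ae_of_all _ fun η hη => ?_
          have hη : 0 < η := hη
          rw [Real.norm_of_nonneg (by positivity)]
          refine Real.rpow_le_one_of_one_le_of_nonpos (le_trans ?_ (le_abs_self _)) (by norm_num)
          nlinarith)
      refine IntegrableOn.congr_fun this (fun η _ => ?_) measurableSet_Ioi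
      ring
    · have hca : ContinuousAt (fun η => f η * ∏ k ∈ s, |1 - 2 * a k * η| ^ (-(1 / 2) : ℝ))
          (1 / (2 * a j)) := by
        refine (hc _ (by positivity)).mul (continuousAt_finset_prod_aux a s _ fun k hk h0 => ?_)
        have : a j = a k := by field_simp at h0; linarith
        exact hj (hinj j (Finset.mem_insert_self _ _) k (Finset.mem_insert_of_mem hk) h this ▸ hk)
      have := (integrableOn_mul_sing ih' hca).const_mul ((2 * a j) ^ (-(1 / 2) : ℝ))
      refine IntegrableOn.congr_fun this (fun η _ => ?_) measurableSet_Ioi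
      have e : |1 - 2 * a j * η| = 2 * a j * |η - 1 / (2 * a j)| := by
        rw [← abs_of_pos (show 0 < 2 * a j by positivity), ← abs_mul, abs_of_pos
          (show 0 < 2 * a j by positivity), abs_sub_comm]
        congr 1; field_simp
      rw [e, Real.mul_rpow (by positivity) (abs_nonneg _)]; ring

lemma integrableOn_K {q b : ℝ} (h0 : 0 < q) (h1 : q < 1) (hb : 0 < b) :
    IntegrableOn (fun t : ℝ => t ^ (-q) / (1 + 2 * b * t)) (Ioi 0) := by
  have hm : ContinuousOn (fun t : ℝ => t ^ (-q) / (1 + 2 * b * t)) (Ioi 0) :=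
    ContinuousOn.div (continuousOn_id.rpow_const fun x hx => Or.inl (ne_of_gt hx)) (by fun_prop)
      fun t ht => by have : 0 < t := ht; positivity
  rw [← Ioc_union_Ioi_eq_Ioi zero_le_one]
  refine IntegrableOn.union ?_ ?_
  · have h1 : IntegrableOn (fun ξ : ℝ => ξ ^ (-q)) (Ioc 0 1) :=
      (intervalIntegrable_iff_integrableOn_Ioc_of_le zero_le_one).1
        (intervalIntegral.intervalIntegrable_rpow' (by linarith))
    refine h1.mono' ((hm.mono Ioc_subset_Ioi_self).aestronglyMeasurable measurableSet_Ioc) ?_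
    refine (ae_restrict_iff' measurableSet_Ioc).2 (ae_of_all _ fun ξ hξ => ?_)
    have hξ0 : 0 < ξ := hξ.1
    rw [Real.norm_of_nonneg (by positivity)]
    exact div_le_self (by positivity) (by nlinarith)
  · have h1 : IntegrableOn (fun ξ : ℝ => (2 * b)⁻¹ * ξ ^ (-q - 1)) (Ioi 1) :=
      (integrableOn_Ioi_rpow_of_lt (by linarith) one_pos).const_mul _
    refine h1.mono' ((hm.mono (Ioi_subset_Ioi zero_le_one)).aestronglyMeasurable
      measurableSet_Ioi) ?_
    refine (ae_restrict_iff' measurableSet_Ioi).2 (ae_of_all _ fun ξ hξ => ?_)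
    have hξ0 : 0 < ξ := lt_trans one_pos hξ
    rw [Real.norm_of_nonneg (by positivity), Real.rpow_sub_one hξ0.ne']
    calc ξ ^ (-q) / (1 + 2 * b * ξ) ≤ ξ ^ (-q) / (2 * b * ξ) := by gcongr; linarith
      _ = _ := by field_simp

end Pool.Agent.MP_c22ba5_pr.H86
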