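import Pool.Agent.MP_c22ba5_pr.H86.Fourier
import Pool.Agent.MP_c22ba5_pr.H86.Ident

/-! Positive coefficients give a positively skewed variable. -/

open MeasureTheory ProbabilityTheory Set Filter Topology Complex

namespace Pool.Agent.MP_c22ba5_pr.H86

lemma tendsto_interval {E : Type*} [NormedAddCommGroup E] [NormedSpace ℝ E] {g : ℝ → E}
    (hg : IntegrableOn g (Ioi 0)) :
    Tendsto (fun R : ℝ => ∫ x in R⁻¹..R, g x) atTop (𝓝 (∫ x in Ioi (0 : ℝ), g x)) := by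
  have hc : AECover (volume.restrict (Ioi (0 : ℝ))) atTop fun R : ℝ => Ioc R⁻¹ R :=
    aecover_restrict_of_ae_imp measurableSet_Ioi (ae_of_all _ fun x hx => by
      filter_upwards [tendsto_inv_atTop_zero.eventually (eventually_lt_nhds (show 0 < x from hx)),
        eventually_ge_atTop x] with R h1 h2 using ⟨h1, h2⟩) fun _ => measurableSet_Ioc
  refine (hc.integral_tendsto_of_countably_generated hg).congr' ?_
  filter_upwards [eventually_ge_atTop 1] with R hR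
  have h0 : 0 < R := by linarith
  rw [intervalIntegral.integral_of_le ((inv_le_one_of_one_le₀ hR).trans hR),
    Measure.restrict_restrict measurableSet_Ioc,
    inter_eq_left.2 (show Ioc R⁻¹ R ⊆ Ioi 0 from fun x hx => lt_trans (inv_pos.2 h0) hx.1)]

lemma osc_nonneg {q C : ℝ} (h0 : 0 < q) (h2 : q < 2) {ρ ρ' ϑ θ1 θ2 g : ℝ → ℝ}
    (hρ : ∀ ξ, 0 < ξ → HasDerivAt ρ (ρ' ξ) ξ) (hϑ : ∀ ξ, 0 < ξ → HasDerivAt ϑ (θ1 ξ) ξ)
    (hθ : ∀ ξ, 0 < ξ → HasDerivAt θ1 (θ2 ξ) ξ)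
    (ρ0 : ∀ ξ, 0 < ξ → 0 ≤ ρ ξ) (ρ1 : ∀ ξ, 0 < ξ → ρ ξ ≤ 1) (ρ2 : ∀ ξ, 0 < ξ → ρ' ξ ≤ 0)
    (t1 : ∀ ξ, 0 < ξ → 0 < θ1 ξ) (t2 : ∀ ξ, 0 < ξ → 0 ≤ θ2 ξ)
    (t3 : ∀ ξ, 0 < ξ → 0 ≤ ϑ ξ) (t4 : ∀ ξ, 0 < ξ → ϑ ξ ≤ ξ * θ1 ξ)
    (t5 : ∀ ξ, 0 < ξ → θ1 ξ ≤ C * ξ ^ 2)
    (hg : ∀ ξ, 0 < ξ → g ξ
      = (ρ' ξ * Real.sin (ϑ ξ) + ρ ξ * (Real.cos (ϑ ξ) * θ1 ξ)) * ξ ^ (-q - 1))
    (hi : IntegrableOn g (Ioi 0)) : 0 ≤ ∫ ξ in Ioi (0 : ℝ), g ξ := by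
  set A : ℝ → ℝ := fun ξ => ρ ξ * Real.sin (ϑ ξ) * ξ ^ (-q - 1)
    + (q + 1) * (ρ ξ * ξ ^ (-q - 2) * (θ1 ξ)⁻¹ * (1 - Real.cos (ϑ ξ))) with hA
  have hd : ∀ ξ, 0 < ξ → ∃ A', HasDerivAt A A' ξ ∧ A' ≤ g ξ := by
    intro ξ hξ
    have d1 : HasDerivAt (fun ξ : ℝ => ξ ^ (-q - 1)) ((-q - 1) * ξ ^ (-q - 2)) ξ := by
      have := Real.hasDerivAt_rpow_const (x := ξ) (p := -q - 1) (Or.inl hξ.ne')
      rwa [show -q - 1 - 1 = -q - 2 by ring] at this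
    have d2 := Real.hasDerivAt_rpow_const (x := ξ) (p := -q - 2) (Or.inl hξ.ne')
    have d3 := (hθ ξ hξ).fun_inv (t1 ξ hξ).ne'
    have d4 := (((hρ ξ hξ).fun_mul (hϑ ξ hξ).sin).fun_mul d1).fun_add
      ((((((hρ ξ hξ).fun_mul d2).fun_mul d3)).fun_mul ((hϑ ξ hξ).cos.const_sub 1)).const_mul (q + 1))
    refine ⟨_, d4, ?_⟩
    rw [hg ξ hξ]
    have e1 : 0 ≤ 1 - Real.cos (ϑ ξ) := by linarith [Real.cos_le_one (ϑ ξ)]
    have p1 : 0 < ξ ^ (-q - 2) := by positivity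
    have p2 : 0 < ξ ^ (-q - 2 - 1) := by positivity
    have p3 := t1 ξ hξ
    have n1 : (ρ' ξ * ξ ^ (-q - 2) + ρ ξ * ((-q - 2) * ξ ^ (-q - 2 - 1))) * (θ1 ξ)⁻¹ ≤ 0 := by
      refine mul_nonpos_of_nonpos_of_nonneg (add_nonpos ?_ ?_) (by positivity)
      · exact mul_nonpos_of_nonpos_of_nonneg (ρ2 ξ hξ) p1.le
      · exact mul_nonpos_of_nonneg_of_nonpos (ρ0 ξ hξ)
          (mul_nonpos_of_nonpos_of_nonneg (by linarith) p2.le)
    have n2 : ρ ξ * ξ ^ (-q - 2) * (-θ2 ξ / θ1 ξ ^ 2) ≤ 0 :=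
      mul_nonpos_of_nonneg_of_nonpos (mul_nonneg (ρ0 ξ hξ) p1.le)
        (div_nonpos_of_nonpos_of_nonneg (by linarith [t2 ξ hξ]) (by positivity))
    have n3 := mul_nonpos_of_nonneg_of_nonpos (show 0 ≤ q + 1 by linarith)
      (mul_nonpos_of_nonpos_of_nonneg (add_nonpos n1 n2) e1)
    have e2 : (θ1 ξ)⁻¹ * θ1 ξ = 1 := inv_mul_cancel₀ p3.ne'
    have e3 : (q + 1) * (ρ ξ * ξ ^ (-q - 2) * (θ1 ξ)⁻¹ * (-(-Real.sin (ϑ ξ) * θ1 ξ)))
        = (q + 1) * (ρ ξ * ξ ^ (-q - 2) * Real.sin (ϑ ξ)) := by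
      linear_combination (q + 1) * (ρ ξ * ξ ^ (-q - 2) * Real.sin (ϑ ξ)) * e2
    linarith
  choose! A' hA' hle using hd
  have hC : 0 ≤ C := by
    have := (t1 1 one_pos).trans_le (t5 1 one_pos)
    linarith
  have lim1 : Tendsto (fun R : ℝ => -R ^ (-(q + 1)) - (C + (q + 1) * C) * (R ^ (-(2 - q)))) atTop
      (𝓝 (-0 - (C + (q + 1) * C) * 0)) :=
    (tendsto_rpow_neg_atTop (by linarith)).neg.sub
      ((tendsto_rpow_neg_atTop (by linarith)).const_mul _)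
  simp only [neg_zero, mul_zero, sub_zero] at lim1
  refine le_of_tendsto_of_tendsto lim1 (tendsto_interval hi) ?_
  filter_upwards [eventually_ge_atTop 1] with R hR
  have hR0 : 0 < R := by linarith
  have hε : 0 < R⁻¹ := inv_pos.2 hR0
  have key := intervalIntegral.sub_le_integral_of_hasDeriv_right_of_le (g := A) (g' := A') (φ := g)
    ((inv_le_one_of_one_le₀ hR).trans hR)
    (fun x hx => (hA' x (hε.trans_le hx.1)).continuousAt.continuousWithinAt)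
    (fun x hx => (hA' x (hε.trans hx.1)).hasDerivWithinAt)
    (hi.mono_set fun x hx => hε.trans_le hx.1) (fun x hx => hle x (hε.trans hx.1))
  refine le_trans ?_ key
  have b1 : -R ^ (-(q + 1)) ≤ A R := by
    have e1 : 0 ≤ 1 - Real.cos (ϑ R) := by linarith [Real.cos_le_one (ϑ R)]
    have p3 := t1 R hR0
    have p4 := ρ0 R hR0
    have p5 : 0 ≤ (q + 1) * (ρ R * R ^ (-q - 2) * (θ1 R)⁻¹ * (1 - Real.cos (ϑ R))) := by positivity
    have p6 : -1 ≤ ρ R * Real.sin (ϑ R) := by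
      nlinarith [Real.neg_one_le_sin (ϑ R), ρ1 R hR0]
    have p7 : 0 < R ^ (-q - 1) := by positivity
    rw [show -(q + 1) = -q - 1 by ring]
    simp only [hA]
    nlinarith
  have b2 : A R⁻¹ ≤ (C + (q + 1) * C) * (R ^ (-(2 - q))) := by
    set ε := R⁻¹ with hεdef
    have e0 : R ^ (-(2 - q)) = ε ^ (2 - q) := by
      rw [hεdef, Real.inv_rpow hR0.le, Real.rpow_neg hR0.le]
    have e1 : ε ^ (2 - q) = ε ^ 3 * ε ^ (-q - 1) := by
      rw [← Real.rpow_natCast, ← Real.rpow_add hε]; congr 1; push_cast; ring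
    have e2 : ε ^ (2 - q) = ε ^ 4 * ε ^ (-q - 2) := by
      rw [← Real.rpow_natCast, ← Real.rpow_add hε]; congr 1; push_cast; ring
    have p3 := t1 ε hε
    have p4 := ρ0 ε hε
    have p5 := ρ1 ε hε
    have q3 := t3 ε hε
    have q4 := t4 ε hε
    have q5 : ϑ ε ≤ C * ε ^ 3 := by nlinarith [t5 ε hε]
    have s1 : ρ ε * Real.sin (ϑ ε) ≤ C * ε ^ 3 := by
      have := Real.sin_le q3
      nlinarith
    have s2 : (θ1 ε)⁻¹ * (1 - Real.cos (ϑ ε)) ≤ C * ε ^ 4 := by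
      rw [inv_mul_le_iff₀ p3]
      have c1 := Real.one_sub_sq_div_two_le_cos (x := ϑ ε)
      have : ϑ ε * ϑ ε ≤ (ε * θ1 ε) * (C * ε ^ 3) := mul_le_mul q4 q5 q3 (by positivity)
      nlinarith
    have s2' : 0 ≤ (θ1 ε)⁻¹ * (1 - Real.cos (ϑ ε)) :=
      mul_nonneg (by positivity) (by linarith [Real.cos_le_one (ϑ ε)])
    have s3 : ρ ε * ((θ1 ε)⁻¹ * (1 - Real.cos (ϑ ε))) ≤ C * ε ^ 4 := by nlinarith
    have p7 : 0 < ε ^ (-q - 1) := by positivity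
    have p8 : 0 < ε ^ (-q - 2) := by positivity
    have u1 : ρ ε * Real.sin (ϑ ε) * ε ^ (-q - 1) ≤ C * ε ^ (2 - q) := by
      rw [e1]; nlinarith
    have u2 : ρ ε * ε ^ (-q - 2) * (θ1 ε)⁻¹ * (1 - Real.cos (ϑ ε)) ≤ C * ε ^ (2 - q) := by
      rw [e2]; nlinarith
    rw [e0]
    simp only [hA]
    nlinarith
  linarith

variable {n : ℕ}

/-- the exponent of the characteristic function -/
noncomputable def zz (a : Fin n → ℝ) (ξ : ℝ) : ℂ :=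
  I * (∑ k, a k : ℝ) * ξ - (1 / 2) * ∑ k, log (1 + 2 * I * a k * ξ)

lemma u_slit (t ξ : ℝ) : (1 + 2 * I * t * ξ : ℂ) ∈ slitPlane := by
  left; simp

lemma one_sub_inv_u (t ξ : ℝ) : I * t * (1 - 1 / (1 + 2 * I * t * ξ : ℂ))
    = ((-(2 * t ^ 2 * ξ) / (1 + 4 * t ^ 2 * ξ ^ 2) : ℝ) : ℂ)
      + ((4 * t ^ 3 * ξ ^ 2 / (1 + 4 * t ^ 2 * ξ ^ 2) : ℝ) : ℂ) * I := by
  have h1 := u_ne t ξ
  have h2 : ((1 + 4 * t ^ 2 * ξ ^ 2 : ℝ) : ℂ) ≠ 0 := by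
    exact_mod_cast (show (1 + 4 * t ^ 2 * ξ ^ 2 : ℝ) ≠ 0 by positivity)
  have h3 : (1 / (1 + 2 * I * t * ξ) : ℂ)
      = (1 - 2 * I * t * ξ) / ((1 + 4 * t ^ 2 * ξ ^ 2 : ℝ) : ℂ) := by
    rw [div_eq_div_iff h1 h2]
    push_cast
    linear_combination (4 * t ^ 2 * ξ ^ 2 : ℂ) * I_sq
  rw [h3, ofReal_div, ofReal_div, div_mul_eq_mul_div, ← add_div, eq_div_iff h2, mul_assoc, sub_mul,
    div_mul_cancel₀ _ h2]
  push_cast
  linear_combination (2 * t ^ 2 * ξ : ℂ) * I_sq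

lemma hasDerivAt_zz (a : Fin n → ℝ) (ξ : ℝ) :
    HasDerivAt (zz a) (∑ k, I * a k * (1 - 1 / (1 + 2 * I * a k * ξ : ℂ))) ξ := by
  have h0 : HasDerivAt (fun y : ℝ => (y : ℂ)) 1 ξ := Complex.ofRealCLM.hasDerivAt
  have h1 : ∀ k, HasDerivAt (fun y : ℝ => log (1 + 2 * I * a k * y))
      ((2 * I * a k * 1) / (1 + 2 * I * a k * ξ)) ξ := fun k =>
    ((h0.const_mul (2 * I * a k)).const_add 1).clog_real (u_slit _ _)
  have h2 := (h0.const_mul (I * (∑ k, a k : ℝ))).fun_sub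
    ((HasDerivAt.fun_sum fun k (_ : k ∈ Finset.univ) => h1 k).const_mul (1 / 2))
  refine HasDerivAt.congr_deriv h2 ?_
  push_cast
  rw [mul_one, Finset.mul_sum, Finset.mul_sum, ← Finset.sum_sub_distrib]
  exact Finset.sum_congr rfl fun k _ => by ring

lemma skew_base {q : ℝ} (h0 : 0 < q) (h2 : q < 2) {a : Fin n → ℝ} (ha : ∀ k, 0 ≤ a k) :
    0 ≤ ∫ x, ψ q (S a x) ∂μ n := by
  by_cases hz : ∀ k, a k = 0
  · have : ∀ x, S a x = 0 := fun x => by simp [S, hz]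
    simp [this, ψ]
  push Not at hz
  obtain ⟨k0, hk0⟩ := hz
  have hk0' : 0 < a k0 := lt_of_le_of_ne (ha k0) hk0.symm
  have hw0 : ∫ x, S a x ∂μ n = 0 := by simpa [ψ] using skew_zero a
  obtain ⟨hi, he⟩ := fourier_rep h0 h2 a (PG_S a) hw0
  refine nonneg_of_mul_nonneg_right (a := Iq q) ?_ (Iq_pos h0 h2)
  unfold ψ
  rw [he]
  set r : ℝ → ℝ := fun ξ => ∑ k, -(2 * a k ^ 2 * ξ) / (1 + 4 * a k ^ 2 * ξ ^ 2) with hr
  set θ1 : ℝ → ℝ := fun ξ => ∑ k, 4 * a k ^ 3 * ξ ^ 2 / (1 + 4 * a k ^ 2 * ξ ^ 2) with hθ1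
  have hz' : ∀ ξ : ℝ, ∑ k, I * a k * (1 - 1 / (1 + 2 * I * a k * ξ : ℂ)) = r ξ + θ1 ξ * I := by
    intro ξ
    simp only [one_sub_inv_u, Finset.sum_add_distrib, ← Finset.sum_mul, hr, hθ1, ofReal_sum]
  have dre : ∀ ξ, HasDerivAt (fun ξ => (zz a ξ).re) (r ξ) ξ := fun ξ =>
    HasDerivAt.congr_deriv (Complex.reCLM.hasFDerivAt.comp_hasDerivAt ξ (hasDerivAt_zz a ξ))
      (by rw [hz']; simp)
  have dim : ∀ ξ, HasDerivAt (fun ξ => (zz a ξ).im) (θ1 ξ) ξ := fun ξ =>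
    HasDerivAt.congr_deriv (Complex.imCLM.hasFDerivAt.comp_hasDerivAt ξ (hasDerivAt_zz a ξ))
      (by rw [hz']; simp)
  have hr0 : ∀ ξ, 0 ≤ ξ → r ξ ≤ 0 := fun ξ hξ => Finset.sum_nonpos fun k _ =>
    div_nonpos_of_nonpos_of_nonneg (by simp only [Left.neg_nonpos_iff]; positivity) (by positivity)
  have hθ0 : ∀ ξ, 0 ≤ θ1 ξ := fun ξ => Finset.sum_nonneg fun k _ => by
    have := ha k; positivity
  have hθm : ∀ c ξ, 0 ≤ c → c ≤ ξ → θ1 c ≤ θ1 ξ := fun c ξ hc hcξ => Finset.sum_le_sum fun k _ => by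
    have := ha k
    rw [div_le_div_iff₀ (by positivity) (by positivity)]
    have h3 : c ^ 2 ≤ ξ ^ 2 := by gcongr
    have h4 : 0 ≤ a k ^ 3 * (ξ ^ 2 - c ^ 2) := mul_nonneg (by positivity) (by linarith)
    nlinarith
  have z0 : zz a 0 = 0 := by simp [zz]
  have mvt : ∀ ξ, 0 < ξ → ∃ c ∈ Ioo 0 ξ, (zz a ξ).im = ξ * θ1 c := by
    intro ξ hξ
    obtain ⟨c, hc, h⟩ := exists_hasDerivAt_eq_slope (fun ξ => (zz a ξ).im) θ1 hξ
      (fun x _ => (dim x).continuousAt.continuousWithinAt) (fun x _ => dim x)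
    refine ⟨c, hc, ?_⟩
    rw [h, z0]; simp only [zero_im, sub_zero]; field_simp
  refine osc_nonneg (C := ∑ k, 4 * a k ^ 3) h0 h2 (ρ := fun ξ => Real.exp (zz a ξ).re)
    (ρ' := fun ξ => Real.exp (zz a ξ).re * r ξ) (ϑ := fun ξ => (zz a ξ).im) (θ1 := θ1)
    (θ2 := fun ξ => ∑ k, 8 * a k ^ 3 * ξ / (1 + 4 * a k ^ 2 * ξ ^ 2) ^ 2)
    (fun ξ _ => (dre ξ).exp) (fun ξ _ => dim ξ) (fun ξ _ => ?_) (fun ξ _ => (Real.exp_pos _).le)
    (fun ξ hξ => ?_) (fun ξ hξ => mul_nonpos_of_nonneg_of_nonpos (Real.exp_pos _).le (hr0 ξ hξ.le))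
    (fun ξ hξ => ?_) (fun ξ hξ => ?_) (fun ξ hξ => ?_) (fun ξ hξ => ?_) (fun ξ hξ => ?_)
    (fun ξ hξ => ?_) hi
  · refine HasDerivAt.fun_sum fun k _ => ?_
    have d1 := (hasDerivAt_pow 2 ξ).const_mul (4 * a k ^ 3)
    have d2 := ((hasDerivAt_pow 2 ξ).const_mul (4 * a k ^ 2)).const_add 1
    refine HasDerivAt.congr_deriv (d1.fun_div d2 (by positivity)) ?_
    congr 1; simp; ring
  · rw [Real.exp_le_one_iff]
    obtain ⟨c, hc, h⟩ := exists_hasDerivAt_eq_slope (fun ξ => (zz a ξ).re) r hξ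
      (fun x _ => (dre x).continuousAt.continuousWithinAt) (fun x _ => dre x)
    have := hr0 c hc.1.le
    rw [h, z0] at this
    simp only [zero_re, sub_zero] at this
    by_contra hc'
    exact absurd this (not_le.2 (div_pos (not_le.1 hc') hξ))
  · exact Finset.sum_pos' (fun k _ => by have := ha k; positivity)
      ⟨k0, Finset.mem_univ _, by positivity⟩
  · exact Finset.sum_nonneg fun k _ => by have := ha k; positivity
  · obtain ⟨c, -, h⟩ := mvt ξ hξ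
    rw [h]; exact mul_nonneg hξ.le (hθ0 c)
  · obtain ⟨c, hc, h⟩ := mvt ξ hξ
    rw [h]; exact mul_le_mul_of_nonneg_left (hθm c ξ hc.1.le hc.2.le) hξ.le
  · rw [Finset.sum_mul]
    refine Finset.sum_le_sum fun k _ => div_le_self (by have := ha k; positivity) ?_
    have : 0 ≤ 4 * a k ^ 2 * ξ ^ 2 := by positivity
    linarith
  · congr 1
    have pc : PG fun x => Real.cos (ξ * S a x) := PG.of_bdd
      (by have := (PG_S a).1; fun_prop) 1 fun x => Real.abs_cos_le_one _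
    have e1 : ∀ x, S a x * Real.cos (ξ * S a x)
        = ∑ k, a k * ((-1 + 1 * x k ^ 2 + 0 * x k ^ 4) * Real.cos (ξ * S a x)) := by
      intro x
      nth_rewrite 1 [S]
      rw [Finset.sum_mul]
      exact Finset.sum_congr rfl fun k _ => by ring
    simp only [e1]
    rw [integral_finsetSum _ fun k _ => (((((PG.const _).add (((PG.apply k).pow 2).const_mul _)).add
      (((PG.apply k).pow 4).const_mul _)).mul pc).const_mul _).integrable]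
    simp only [integral_const_mul, cos_comb]
    have e2 : ∑ k, a k * (Φ a ξ * (((-1 : ℝ) : ℂ) + ((1 : ℝ) : ℂ) / (1 + 2 * I * a k * ξ)
        + 3 * ((0 : ℝ) : ℂ) / (1 + 2 * I * a k * ξ) ^ 2)).re
        = (I * (Φ a ξ * ∑ k, I * a k * (1 - 1 / (1 + 2 * I * a k * ξ : ℂ)))).re := by
      rw [Finset.mul_sum, Finset.mul_sum, re_sum]
      refine Finset.sum_congr rfl fun k _ => ?_
      rw [← re_ofReal_mul]
      congr 1
      push_cast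
      linear_combination -(Φ a ξ * a k * (1 - 1 / (1 + 2 * I * a k * ξ : ℂ))) * I_sq
    rw [e2, hz']
    have e3 : Φ a ξ = cexp (zz a ξ) := rfl
    rw [e3]
    simp [exp_re, exp_im]
    ring

lemma skew_nonneg {q : ℝ} (h0 : 0 ≤ q) {a : Fin n → ℝ} (ha : ∀ k, 0 ≤ a k) :
    0 ≤ ∫ x, ψ q (S a x) ∂μ n := by
  have : ∀ m : ℕ, ∀ q : ℝ, 0 ≤ q → q < 2 * m + 2 → 0 ≤ ∫ x, ψ q (S a x) ∂μ n := by
    intro m
    induction m with
    | zero =>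
      intro q h0 h2
      rcases h0.eq_or_lt with rfl | h0
      · exact (skew_zero a).ge
      · exact skew_base h0 (by simpa using h2) ha
    | succ m ih =>
      intro q h0 h2
      rcases lt_or_ge q (2 * m + 2) with h | h
      · exact ih q h0 h
      · have hm : (0 : ℝ) ≤ m := Nat.cast_nonneg m
        push_cast at h2
        have := skew_step (q := q - 2) (by linarith) ha (ih _ (by linarith) (by linarith))
        rwa [sub_add_cancel] at this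
  refine this ⌈q⌉₊ q h0 ?_
  have := Nat.le_ceil q
  linarith

end Pool.Agent.MP_c22ba5_pr.H86
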