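import Pool.Agent.MP_c22ba5_pr.H86.Gauss

/-! First and second order conditions at a maximiser. -/

open MeasureTheory ProbabilityTheory Set Filter Topology

namespace Pool.Agent.MP_c22ba5_pr.H86

/-- `y |y|^q` -/
noncomputable def ψ (q y : ℝ) : ℝ := y * |y| ^ q

lemma PG_ψ {q : ℝ} (hq : 0 ≤ q) : PG (ψ q) := PG.id'.mul (PG.abs_rpow hq)

lemma hasDerivAt_ψ {q : ℝ} (hq : 0 < q) (y : ℝ) : HasDerivAt (ψ q) ((q + 1) * |y| ^ q) y := by
  rcases eq_or_ne y 0 with rfl | hy
  · rw [hasDerivAt_iff_tendsto_slope_zero]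
    have h : Tendsto (fun t : ℝ => |t| ^ q) (𝓝[≠] 0) (𝓝 (|(0 : ℝ)| ^ q)) :=
      ((PG.abs_rpow hq.le).1.tendsto 0).mono_left nhdsWithin_le_nhds
    simp only [abs_zero, Real.zero_rpow hq.ne', mul_zero] at h ⊢
    refine h.congr' ?_
    filter_upwards [self_mem_nhdsWithin] with t ht
    have ht' : t ≠ 0 := ht
    simp only [ψ, zero_add, zero_mul, sub_zero, smul_eq_mul]
    field_simp
  · have h1 := (hasDerivAt_abs hy).rpow_const (p := q) (Or.inl (abs_ne_zero.2 hy))
    refine HasDerivAt.congr_deriv ((hasDerivAt_id y).mul h1) ?_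
    have h2 : y * (SignType.sign y : ℝ) = |y| := by
      rw [mul_comm]; exact sign_mul_self y
    have h3 : |y| ^ q = |y| * |y| ^ (q - 1) := by
      rw [Real.rpow_sub_one (abs_ne_zero.2 hy)]; field_simp
    simp only [id]
    rw [h3]
    calc _ = |y| * |y| ^ (q - 1) + (y * (SignType.sign y : ℝ)) * q * |y| ^ (q - 1) := by ring
      _ = _ := by rw [h2]; ring

lemma monotone_ψ {q : ℝ} (hq : 0 ≤ q) : Monotone (ψ q) := by
  rcases hq.eq_or_lt with rfl | hq
  · intro x y h; simpa [ψ] using h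
  exact monotone_of_hasDerivAt_nonneg (hasDerivAt_ψ hq) fun y => by
    simp only [Pi.zero_apply]; positivity

lemma hasDerivAt_pow_abs {q : ℝ} (hq : 0 ≤ q) (y : ℝ) :
    HasDerivAt (fun y : ℝ => |y| ^ (q + 2)) ((q + 2) * ψ q y) y := by
  refine HasDerivAt.congr_deriv (hasDerivAt_abs_rpow y (p := q + 2) (by linarith)) ?_
  simp only [ψ, add_sub_cancel_right]; ring

lemma tangent_le {q : ℝ} (hq : 0 ≤ q) (s h : ℝ) :
    |s| ^ (q + 2) + (q + 2) * (h * ψ q s) ≤ |s + h| ^ (q + 2) := by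
  have hc : Continuous fun y : ℝ => |y| ^ (q + 2) := (PG.abs_rpow (by linarith)).1
  rcases lt_trichotomy h 0 with hh | rfl | hh
  · obtain ⟨c, hc1, hc2⟩ := exists_hasDerivAt_eq_slope (fun y : ℝ => |y| ^ (q + 2))
      (fun y => (q + 2) * ψ q y) (show s + h < s by linarith) hc.continuousOn
      (fun y _ => hasDerivAt_pow_abs hq y)
    rw [eq_div_iff (by linarith)] at hc2
    have := monotone_ψ hq hc1.2.le
    have h3 : 0 ≤ (q + 2) * ((ψ q s - ψ q c) * (-h)) :=
      mul_nonneg (by linarith) (mul_nonneg (by linarith) (by linarith))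
    nlinarith
  · simp
  · obtain ⟨c, hc1, hc2⟩ := exists_hasDerivAt_eq_slope (fun y : ℝ => |y| ^ (q + 2))
      (fun y => (q + 2) * ψ q y) (show s < s + h by linarith) hc.continuousOn
      (fun y _ => hasDerivAt_pow_abs hq y)
    rw [eq_div_iff (by linarith)] at hc2
    have := monotone_ψ hq hc1.1.le
    have h3 : 0 ≤ (q + 2) * ((ψ q c - ψ q s) * h) :=
      mul_nonneg (by linarith) (mul_nonneg (by linarith) (by linarith))
    nlinarith

lemma second_diff {q : ℝ} (hq : 0 < q) (s v : ℝ) {ε : ℝ} (hε : 0 < ε) :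
    ε ^ 2 * ((q + 2) * (q + 1) * (v ^ 2 * (max (|s| - ε * |v|) 0) ^ q))
      ≤ |s + ε * v| ^ (q + 2) + |s - ε * v| ^ (q + 2) - 2 * |s| ^ (q + 2) := by
  have d1 : ∀ t : ℝ, HasDerivAt (fun t : ℝ => |s + t * v| ^ (q + 2) + |s - t * v| ^ (q + 2))
      ((q + 2) * v * (ψ q (s + t * v) - ψ q (s - t * v))) t := by
    intro t
    have a1 := (hasDerivAt_pow_abs hq.le (s + t * v)).comp t
      (((hasDerivAt_id t).mul_const v).const_add s)
    have a2 := (hasDerivAt_pow_abs hq.le (s - t * v)).comp t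
      (((hasDerivAt_id t).mul_const v).const_sub s)
    exact HasDerivAt.congr_deriv (a1.add a2) (by ring)
  have d2 : ∀ t : ℝ, HasDerivAt (fun t : ℝ => ψ q (s + t * v)) ((q + 1) * |s + t * v| ^ q * v) t := by
    intro t
    have a1 := (hasDerivAt_ψ hq (s + t * v)).comp t
      (((hasDerivAt_id t).mul_const v).const_add s)
    exact HasDerivAt.congr_deriv a1 (by ring)
  obtain ⟨c, hc1, hc2⟩ := exists_ratio_hasDerivAt_eq_ratio_slope _ _ hε
    (fun t _ => (d1 t).continuousAt.continuousWithinAt) (fun t _ => d1 t) (fun t : ℝ => t ^ 2)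
    (fun t => 2 * t) (by fun_prop) (fun t _ => by simpa using hasDerivAt_pow 2 t)
  obtain ⟨t, ht1, ht2⟩ := exists_hasDerivAt_eq_slope _ _ (show -c < c by linarith [hc1.1])
    (fun t _ => (d2 t).continuousAt.continuousWithinAt) (fun t _ => d2 t)
  rw [eq_div_iff (by linarith [hc1.1])] at ht2
  have e1 : s + -c * v = s - c * v := by ring
  rw [e1] at ht2
  rw [← ht2] at hc2
  simp only [zero_mul, add_zero, sub_zero] at hc2
  have hc0 : 0 < c := hc1.1
  have e2 : |s + ε * v| ^ (q + 2) + |s - ε * v| ^ (q + 2) - 2 * |s| ^ (q + 2)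
      = ε ^ 2 * ((q + 2) * (q + 1) * (v ^ 2 * |s + t * v| ^ q)) := by
    have : (2 * c) * (|s + ε * v| ^ (q + 2) + |s - ε * v| ^ (q + 2) - 2 * |s| ^ (q + 2))
      = (2 * c) * (ε ^ 2 * ((q + 2) * (q + 1) * (v ^ 2 * |s + t * v| ^ q))) := by
      linear_combination -hc2
    exact mul_left_cancel₀ (by positivity) this
  rw [e2]
  have h4 : max (|s| - ε * |v|) 0 ≤ |s + t * v| := by
    refine max_le ?_ (abs_nonneg _)
    have h5 : |t| ≤ ε := abs_le.2 ⟨by linarith [ht1.1, hc1.2], by linarith [ht1.2, hc1.2]⟩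
    have h6 : |s| ≤ |s + t * v| + |t * v| := by
      have := abs_sub (s + t * v) (t * v)
      simpa using this
    rw [abs_mul] at h6
    nlinarith [abs_nonneg v]
  gcongr

/-- the moment -/
noncomputable def F {n : ℕ} (q : ℝ) (a : Fin n → ℝ) : ℝ := ∫ x, |S a x| ^ (q + 2) ∂μ n

lemma S_add_smul {n : ℕ} (a v x : Fin n → ℝ) (ε : ℝ) : S (a + ε • v) x = S a x + ε * S v x := by
  simp only [S, Pi.add_apply, Pi.smul_apply, smul_eq_mul, Finset.mul_sum, ← Finset.sum_add_distrib]
  exact Finset.sum_congr rfl fun k _ => by ring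

lemma normsq_add_smul {n : ℕ} (a v : Fin n → ℝ) (ε : ℝ) :
    ∑ k, (a + ε • v) k ^ 2 = ∑ k, a k ^ 2 + 2 * ε * ∑ k, a k * v k + ε ^ 2 * ∑ k, v k ^ 2 := by
  simp only [Pi.add_apply, Pi.smul_apply, smul_eq_mul, Finset.mul_sum, ← Finset.sum_add_distrib]
  exact Finset.sum_congr rfl fun k _ => by ring

/-- `a` maximises the moment on the unit sphere (homogeneous form) -/
structure IsMaxi {n : ℕ} (q : ℝ) (a : Fin n → ℝ) : Prop where
  norm : ∑ k, a k ^ 2 = 1
  le : ∀ b : Fin n → ℝ, F q b ≤ F q a * (∑ k, b k ^ 2) ^ ((q + 2) / 2)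

lemma IsMaxi.first {n : ℕ} {q : ℝ} (hq : 0 < q) {a : Fin n → ℝ} (h : IsMaxi q a) (v : Fin n → ℝ) :
    ∫ x, S v x * ψ q (S a x) ∂μ n = F q a * ∑ k, a k * v k := by
  set c := ∫ x, S v x * ψ q (S a x) ∂μ n with hc
  set d := ∑ k, a k * v k with hd
  set w := ∑ k, v k ^ 2 with hw
  have p0 : PG fun x => |S a x| ^ (q + 2) := (PG.abs_rpow (by linarith)).comp (PG_S a)
  have p1 : PG fun x => S v x * ψ q (S a x) := (PG_S v).mul ((PG_ψ hq.le).comp (PG_S a))
  have h1 : ∀ ε : ℝ, F q a + (q + 2) * (ε * c) ≤ F q a * (1 + 2 * ε * d + ε ^ 2 * w) ^ ((q + 2) / 2) := by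
    intro ε
    have := h.le (a + ε • v)
    rw [normsq_add_smul, h.norm] at this
    refine le_trans ?_ this
    rw [hc, ← integral_const_mul, ← integral_const_mul, F,
      ← integral_add p0.integrable ((p1.const_mul _).const_mul _).integrable]
    refine integral_mono (p0.add ((p1.const_mul _).const_mul _)).integrable
      ((PG.abs_rpow (by linarith)).comp (PG_S _)).integrable fun x => ?_
    simp only [S_add_smul]
    have := tangent_le hq.le (S a x) (ε * S v x)
    linarith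
  have hd1 : HasDerivAt (fun ε : ℝ => F q a * (1 + 2 * ε * d + ε ^ 2 * w) ^ ((q + 2) / 2)
      - (q + 2) * (ε * c)) (F q a * ((q + 2) * d) - (q + 2) * c) 0 := by
    have a1 : HasDerivAt (fun ε : ℝ => 1 + 2 * ε * d + ε ^ 2 * w) (2 * d) 0 := by
      have := ((((hasDerivAt_id (0 : ℝ)).const_mul 2).mul_const d).const_add 1).add
        ((hasDerivAt_pow 2 (0 : ℝ)).mul_const w)
      exact HasDerivAt.congr_deriv this (by simp)
    have a2 := (a1.rpow_const (p := (q + 2) / 2) (Or.inl (by simp))).const_mul (F q a)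
    have a3 := (((hasDerivAt_id (0 : ℝ)).mul_const c).const_mul (q + 2))
    refine HasDerivAt.congr_deriv (a2.sub a3) ?_
    simp; left; ring
  have hmin : IsLocalMin (fun ε : ℝ => F q a * (1 + 2 * ε * d + ε ^ 2 * w) ^ ((q + 2) / 2)
      - (q + 2) * (ε * c)) 0 := by
    refine Filter.Eventually.of_forall fun ε => ?_
    have := h1 ε
    simp only [mul_zero, zero_mul, add_zero, ne_eq, OfNat.ofNat_ne_zero, not_false_eq_true,
      zero_pow, Real.one_rpow, mul_one, sub_zero]
    linarith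
  have := hmin.hasDerivAt_eq_zero hd1
  have h2 : (q + 2) * (F q a * d - c) = 0 := by linarith
  rcases mul_eq_zero.1 h2 with h3 | h3
  · linarith
  · linarith

lemma IsMaxi.second {n : ℕ} {q : ℝ} (hq : 0 < q) {a : Fin n → ℝ} (h : IsMaxi q a) (v : Fin n → ℝ)
    (hv : ∑ k, a k * v k = 0) :
    (q + 1) * ∫ x, S v x ^ 2 * |S a x| ^ q ∂μ n ≤ F q a * ∑ k, v k ^ 2 := by
  set w := ∑ k, v k ^ 2 with hw
  have p0 : ∀ b : Fin n → ℝ, PG fun x => |S b x| ^ (q + 2) := fun b =>
    (PG.abs_rpow (by linarith)).comp (PG_S b)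
  have p1 : PG fun x => S v x ^ 2 * |S a x| ^ q :=
    ((PG_S v).pow 2).mul ((PG.abs_rpow hq.le).comp (PG_S a))
  have cg : ∀ ε : ℝ, Continuous fun x => S v x ^ 2 * (max (|S a x| - ε * |S v x|) 0) ^ q := by
    intro ε
    have := (PG_S v).1
    have := (PG_S a).1
    refine Continuous.mul (by fun_prop) (Continuous.rpow_const (by fun_prop) fun _ => Or.inr hq.le)
  have bg : ∀ ε : ℝ, 0 < ε → ∀ x, ‖S v x ^ 2 * (max (|S a x| - ε * |S v x|) 0) ^ q‖
      ≤ S v x ^ 2 * |S a x| ^ q := by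
    intro ε hε x
    have h0 : 0 ≤ max (|S a x| - ε * |S v x|) 0 := le_max_right _ _
    rw [Real.norm_of_nonneg (by positivity)]
    have : max (|S a x| - ε * |S v x|) 0 ≤ |S a x| :=
      max_le (by nlinarith [abs_nonneg (S v x)]) (abs_nonneg _)
    gcongr
  have t1 : Tendsto (fun ε : ℝ => ∫ x, S v x ^ 2 * (max (|S a x| - ε * |S v x|) 0) ^ q ∂μ n) (𝓝[>] 0)
      (𝓝 (∫ x, S v x ^ 2 * |S a x| ^ q ∂μ n)) := by
    refine tendsto_integral_filter_of_dominated_convergence _
      (Eventually.of_forall fun ε => (cg ε).aestronglyMeasurable) ?_ p1.integrable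
      (ae_of_all _ fun x => ?_)
    · filter_upwards [self_mem_nhdsWithin] with ε hε using ae_of_all _ (bg ε hε)
    · have : Continuous fun ε : ℝ => S v x ^ 2 * (max (|S a x| - ε * |S v x|) 0) ^ q :=
        Continuous.mul (by fun_prop) (Continuous.rpow_const (by fun_prop) fun _ => Or.inr hq.le)
      have := (this.tendsto 0).mono_left (nhdsWithin_le_nhds (s := Ioi 0))
      simpa using this
  have hd1 : HasDerivAt (fun t : ℝ => (1 + t * w) ^ ((q + 2) / 2)) ((q + 2) / 2 * w) 0 := by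
    have a1 : HasDerivAt (fun t : ℝ => 1 + t * w) w 0 := by
      simpa using ((hasDerivAt_id (0 : ℝ)).mul_const w).const_add 1
    refine HasDerivAt.congr_deriv (a1.rpow_const (p := (q + 2) / 2) (Or.inl (by simp))) ?_
    simp; ring
  have tsq : Tendsto (fun ε : ℝ => ε ^ 2) (𝓝[>] 0) (𝓝[>] 0) := by
    refine tendsto_nhdsWithin_of_tendsto_nhds_of_eventually_within _ ?_ ?_
    · have : Continuous fun ε : ℝ => ε ^ 2 := by fun_prop
      simpa using (this.tendsto 0).mono_left (nhdsWithin_le_nhds (s := Ioi 0))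
    · filter_upwards [self_mem_nhdsWithin] with ε hε using pow_pos (show 0 < ε from hε) 2
  have t2 := ((hd1.tendsto_slope_zero_right.comp tsq).const_mul (2 * F q a))
  have key := le_of_tendsto_of_tendsto (t1.const_mul ((q + 2) * (q + 1))) t2 (by
    filter_upwards [self_mem_nhdsWithin] with ε hε
    have hε : 0 < ε := hε
    have l1 := h.le (a + ε • v)
    have l2 := h.le (a + (-ε) • v)
    rw [normsq_add_smul, h.norm, hv] at l1 l2
    simp only [mul_zero, add_zero, even_two, Even.neg_pow, ← hw] at l1 l2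
    have ig : Integrable (fun x => S v x ^ 2 * (max (|S a x| - ε * |S v x|) 0) ^ q) (μ n) :=
      p1.integrable.mono' (cg ε).aestronglyMeasurable (ae_of_all _ (bg ε hε))
    have l3 : ε ^ 2 * ((q + 2) * (q + 1) *
        ∫ x, S v x ^ 2 * (max (|S a x| - ε * |S v x|) 0) ^ q ∂μ n)
        ≤ F q (a + ε • v) + F q (a + (-ε) • v) - 2 * F q a := by
      rw [← integral_const_mul, ← integral_const_mul, F, F, F, ← integral_const_mul,
        ← integral_add (p0 _).integrable (p0 _).integrable,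
        ← integral_sub ((p0 _).add (p0 _)).integrable ((p0 _).const_mul _).integrable]
      refine integral_mono ((ig.const_mul _).const_mul _)
        (((p0 _).add (p0 _)).sub ((p0 _).const_mul _)).integrable fun x => ?_
      simp only [S_add_smul]
      have := second_diff hq (S a x) (S v x) hε
      simpa [sub_eq_add_neg] using this
    simp only [Function.comp, zero_add, zero_mul, add_zero, Real.one_rpow, smul_eq_mul]
    rw [← div_eq_inv_mul, ← mul_div_assoc, le_div_iff₀ (by positivity)]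
    nlinarith)
  have : (q + 2) * ((q + 1) * ∫ x, S v x ^ 2 * |S a x| ^ q ∂μ n) ≤ (q + 2) * (F q a * w) := by
    linarith
  exact le_of_mul_le_mul_left this (by linarith)

lemma F_smul {n : ℕ} {q : ℝ} (c : ℝ) (b : Fin n → ℝ) : F q (c • b) = |c| ^ (q + 2) * F q b := by
  rw [F, F, ← integral_const_mul]
  congr 1; ext x
  have : S (c • b) x = c * S b x := by
    have := S_add_smul 0 b x c
    simpa [S] using this
  rw [this, abs_mul, Real.mul_rpow (abs_nonneg _) (abs_nonneg _)]

lemma exists_isMaxi {n : ℕ} (hn : 0 < n) {q : ℝ} (hq : 0 < q) : ∃ a : Fin n → ℝ, IsMaxi q a := by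
  set K : Set (Fin n → ℝ) := {a | ∑ k, a k ^ 2 = 1} with hK
  have hb : ∀ a ∈ K, ∀ k, |a k| ≤ 1 := by
    intro a ha k
    have : a k ^ 2 ≤ ∑ k, a k ^ 2 :=
      Finset.single_le_sum (f := fun k => a k ^ 2) (fun _ _ => sq_nonneg _) (Finset.mem_univ k)
    rw [ha] at this
    exact abs_le_one_iff_mul_self_le_one.2 (by nlinarith)
  have hcl : IsClosed K := isClosed_eq (by fun_prop) continuous_const
  have hco : IsCompact K := by
    refine (isCompact_closedBall (0 : Fin n → ℝ) 1).of_isClosed_subset hcl fun a ha => ?_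
    rw [mem_closedBall_zero_iff, pi_norm_le_iff_of_nonneg zero_le_one]
    exact hb a ha
  have hne : K.Nonempty := ⟨Pi.single ⟨0, hn⟩ 1, by
    simp only [hK, mem_ofPred_eq]
    rw [Finset.sum_eq_single ⟨0, hn⟩] <;> simp +contextual⟩
  have hcont : ContinuousOn (F q) K := by
    have pb : PG fun x : Fin n → ℝ => |∑ k, |x k ^ 2 - 1| ^ (1 : ℝ)| ^ (q + 2) :=
      (PG.abs_rpow (by linarith)).comp (PG.sum _ fun k _ =>
        (PG.abs_rpow zero_le_one).comp (((PG.apply k).pow 2).sub (PG.const 1)))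
    refine continuousOn_of_dominated (fun a _ =>
      ((PG.abs_rpow (by linarith)).comp (PG_S a)).1.aestronglyMeasurable)
      (fun a ha => ae_of_all _ fun x => ?_) pb.integrable (ae_of_all _ fun x => ?_)
    · rw [Real.norm_of_nonneg (by positivity)]
      have : |S a x| ≤ |∑ k, |x k ^ 2 - 1| ^ (1 : ℝ)| := by
        refine le_trans ?_ (le_abs_self _)
        refine (Finset.abs_sum_le_sum_abs _ _).trans (Finset.sum_le_sum fun k _ => ?_)
        rw [abs_mul, Real.rpow_one]
        exact mul_le_of_le_one_left (abs_nonneg _) (hb a ha k)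
      gcongr
    · refine Continuous.continuousOn (Continuous.rpow_const ?_ fun _ => Or.inr (by linarith))
      unfold S; fun_prop
  obtain ⟨a, ha, hmax⟩ := hco.exists_isMaxOn hne hcont
  refine ⟨a, ha, fun b => ?_⟩
  set w := ∑ k, b k ^ 2 with hw
  have hw0 : 0 ≤ w := Finset.sum_nonneg fun _ _ => sq_nonneg _
  rcases hw0.eq_or_lt with h0 | h0
  · have hb0 : b = 0 := by
      funext k
      have := (Finset.sum_eq_zero_iff_of_nonneg (fun _ _ => sq_nonneg _)).1 h0.symm k (Finset.mem_univ k)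
      simpa using this
    have := F_smul (q := q) 0 b
    rw [zero_smul, abs_zero, Real.zero_rpow (by linarith), zero_mul] at this
    rw [hb0, this, ← h0, Real.zero_rpow (by linarith), mul_zero]
  · have hs : 0 < √w := Real.sqrt_pos.2 h0
    have hm : (√w)⁻¹ • b ∈ K := by
      simp only [hK, mem_ofPred_eq, Pi.smul_apply, smul_eq_mul, mul_pow, ← Finset.mul_sum, ← hw]
      rw [inv_pow, Real.sq_sqrt hw0, inv_mul_cancel₀ h0.ne']
    have h1 : F q ((√w)⁻¹ • b) ≤ F q a := hmax hm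
    have h2 := F_smul (q := q) (√w) ((√w)⁻¹ • b)
    rw [smul_smul, mul_inv_cancel₀ hs.ne', one_smul, abs_of_pos hs] at h2
    have h3 : √w ^ (q + 2) = w ^ ((q + 2) / 2) := by
      rw [Real.sqrt_eq_rpow, ← Real.rpow_mul hw0]; congr 1; ring
    rw [h2, h3, mul_comm]
    gcongr

end Pool.Agent.MP_c22ba5_pr.H86
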